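import Pool.Agent.MP_7f38c2_co.H10.Greedy

/-! The core lemma outside a finite set with a smallest cut. -/

namespace Pool.Agent.MP_7f38c2_co.H10

open Classical

namespace MG

variable {V E : Type*}

def In (G : MG V E) (B : Set V) : Set E := {e | G.s e ∈ B ∧ G.t e ∈ B}

def Inc (G : MG V E) (S : Set V) : Set E := {e | G.s e ∈ S ∨ G.t e ∈ S}

/-- all components of `T` inside `B` are infinite -/
def Wired (G : MG V E) (B : Set V) (T : Set E) : Prop :=
  ∀ X : Finset V, X.Nonempty → ↑X ⊆ B → (T ∩ G.In B ∩ G.cut X).Nonempty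

def sub (G : MG V E) (B : Set V) : MG B (G.In B) where
  s e := ⟨G.s e, e.2.1⟩
  t e := ⟨G.t e, e.2.2⟩
  lf v := ((G.lf v).preimage Subtype.val_injective.injOn).subset (by
    rintro e (he | he)
    · exact Or.inl (congrArg Subtype.val he)
    · exact Or.inr (congrArg Subtype.val he))

lemma image_cut_sub (G : MG V E) (B : Set V) (U : Set B) :
    Subtype.val '' (G.sub B).cut U = G.In B ∩ G.cut (Subtype.val '' U) := by
  ext e
  constructor
  · rintro ⟨e, he, rfl⟩
    refine ⟨e.2, ?_⟩
    simp only [cut, sub, Set.mem_ofPred_eq] at he ⊢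
    rwa [← Subtype.val_injective.mem_set_image, ← Subtype.val_injective.mem_set_image (s := U)]
      at he
  · rintro ⟨he, h⟩
    refine ⟨⟨e, he⟩, ?_, rfl⟩
    simp only [cut, sub, Set.mem_ofPred_eq] at h ⊢
    rwa [← Subtype.val_injective.mem_set_image, ← Subtype.val_injective.mem_set_image (s := U)]

lemma Conn.of_sub {G : MG V E} {B : Set V} {T : Set (G.In B)} {x y : B}
    (h : (G.sub B).Conn T x y) : G.Conn (Subtype.val '' T) x y := by
  induction h with
  | refl => exact Conn.refl _ _ _
  | tail _ hbc ih =>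
    obtain ⟨e, he, h⟩ := hbc
    refine ih.trans (Conn.edge ⟨e, he, rfl⟩ ?_)
    rcases h with ⟨h1, h2⟩ | ⟨h1, h2⟩
    · exact Or.inl ⟨congrArg Subtype.val h1, congrArg Subtype.val h2⟩
    · exact Or.inr ⟨congrArg Subtype.val h1, congrArg Subtype.val h2⟩

lemma wired_of_sub {G : MG V E} {B : Set V} {T : Set (G.In B)} {T' : Set E}
    (hT : Subtype.val '' T ⊆ T')
    (h : ∀ X : Finset B, X.Nonempty → (T ∩ (G.sub B).cut X).Nonempty) : G.Wired B T' := by
  intro X ⟨v, hv⟩ hXB
  obtain ⟨e, he, h1⟩ := h (X.subtype (· ∈ B)) ⟨⟨v, hXB hv⟩, by simpa using hv⟩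
  refine ⟨e, ⟨hT ⟨e, he, rfl⟩, e.2⟩, ?_⟩
  simpa [cut, sub] using h1

theorem core_amb (G : MG V E) (h4 : ∀ X : Finset V, X.Nonempty → 4 ≤ G.d X)
    (H3 : ∀ U : Set V, (G.cut U).Finite → U.Finite ∨ Uᶜ.Finite) (S : Finset V)
    (hS : ∀ S', S ⊆ S' → G.d S ≤ G.d S') {x y : V} (hx : x ∉ S) (hy : y ∉ S) :
    ∃ T : Set E, G.Wired (↑S)ᶜ T ∧ G.Wired (↑S)ᶜ Tᶜ ∧ G.Conn (T ∩ G.In (↑S)ᶜ) x y := by
  set B : Set V := (↑S)ᶜ with hB
  have hcS : (G.cut S).Finite := G.cut_finite S.finite_toSet
  let f : G.cut S → B := fun e => ⟨if G.s e ∈ S then G.t e else G.s e, by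
    have := e.2
    simp only [cut, Set.mem_ofPred_eq, Finset.mem_coe] at this
    simp only [hB, Set.mem_compl_iff, Finset.mem_coe]
    split_ifs <;> tauto⟩
  have : Finite (G.cut S) := hcS.to_subtype
  have hsum : ∀ X : Finset B, ∑ v ∈ X, {e | f e = v}.ncard
      = (G.cut S ∩ G.Inc (Subtype.val '' (X : Set B))).ncard := by
    intro X
    rw [← ncard_fiber_sum (fun _ => Set.toFinite _),
      ← Set.ncard_image_of_injective _ Subtype.val_injective]
    congr 1
    ext e
    constructor
    · rintro ⟨e, he, rfl⟩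
      refine ⟨e.2, ?_⟩
      have h1 : (f e).1 ∈ Subtype.val '' (X : Set B) := ⟨_, he, rfl⟩
      simp only [f] at h1
      split_ifs at h1
      · exact Or.inr h1
      · exact Or.inl h1
    · rintro ⟨he, h⟩
      refine ⟨⟨e, he⟩, ?_, rfl⟩
      rcases h with ⟨v, hv, h⟩ | ⟨v, hv, h⟩
      · have h1 : G.s e ∉ S := h ▸ v.2
        have : f ⟨e, he⟩ = v := Subtype.ext (by simp only [f, if_neg h1, h])
        simpa [this] using hv
      · have h1 : G.t e ∉ S := h ▸ v.2
        have h2 : G.s e ∈ S := by
          simp only [cut, Set.mem_ofPred_eq, Finset.mem_coe] at he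
          tauto
        have : f ⟨e, he⟩ = v := Subtype.ext (by simp only [f, if_pos h2, h])
        simpa [this] using hv
  have hd : ∀ X : Finset B, (G.sub B).d X
      = (G.In B ∩ G.cut (Subtype.val '' (X : Set B))).ncard := by
    intro X
    rw [d_eq, ← image_cut_sub, Set.ncard_image_of_injective _ Subtype.val_injective]
  have hXB : ∀ (X : Finset B) v, v ∈ Subtype.val '' (X : Set B) → v ∉ S := by
    rintro X _ ⟨v, -, rfl⟩
    exact v.2
  have hXf : ∀ X : Finset B, (G.cut (Subtype.val '' (X : Set B))).Finite :=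
    fun X => G.cut_finite (X.finite_toSet.image _)
  obtain ⟨T, h1, h2, h3⟩ := (G.sub B).core (w := fun v => {e | f e = v}.ncard)
    (m := (G.cut S).ncard)
    (fun X hX => by
      rw [hsum, hd]
      have h5 := h4 (X.map (Function.Embedding.subtype _)) (by simpa using hX)
      rw [d_eq, Finset.coe_map, Function.Embedding.coe_subtype] at h5
      refine h5.trans ((Set.ncard_le_ncard ?_ (((hXf X).inter_of_right _).union
        (hcS.inter_of_left _))).trans (Set.ncard_union_le _ _))
      intro e he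
      have h6 := hXB X (G.s e)
      have h7 := hXB X (G.t e)
      simp only [cut, In, Inc, hB, Set.mem_union, Set.mem_inter_iff, Set.mem_ofPred_eq,
        Set.mem_compl_iff, Finset.mem_coe] at he ⊢
      tauto)
    (fun X => by
      rw [hsum, hd]
      have h5 := hS (S ∪ X.map (Function.Embedding.subtype _)) Finset.subset_union_left
      rw [d_eq, d_eq, Finset.coe_union, Finset.coe_map, Function.Embedding.coe_subtype] at h5
      have h6 := Set.ncard_inter_add_ncard_sdiff_eq_ncard (G.cut S)
        (G.Inc (Subtype.val '' (X : Set B))) hcS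
      have h7 : (G.cut (↑S ∪ Subtype.val '' (X : Set B))).ncard ≤
          (G.cut S \ G.Inc (Subtype.val '' (X : Set B))).ncard
            + (G.In B ∩ G.cut (Subtype.val '' (X : Set B))).ncard := by
        refine (Set.ncard_le_ncard ?_ (hcS.sdiff.union
          ((hXf X).inter_of_right _))).trans (Set.ncard_union_le _ _)
        intro e he
        have h6 := hXB X (G.s e)
        have h7 := hXB X (G.t e)
        simp only [cut, In, Inc, hB, Set.mem_union, Set.mem_inter_iff, Set.mem_ofPred_eq,
          Set.mem_compl_iff, Finset.mem_coe, Set.mem_sdiff] at he ⊢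
        tauto
      omega)
    (fun X => by
      rw [hsum]
      exact Set.ncard_le_ncard Set.inter_subset_left hcS)
    (fun U hU => by
      have h5 : (G.cut (Subtype.val '' U)).Finite := by
        refine ((hU.image Subtype.val).union hcS).subset ?_
        rw [image_cut_sub]
        intro e he
        have h6 : G.s e ∈ Subtype.val '' U → G.s e ∉ S := by
          rintro ⟨v, -, h⟩
          exact h ▸ v.2
        have h7 : G.t e ∈ Subtype.val '' U → G.t e ∉ S := by
          rintro ⟨v, -, h⟩
          exact h ▸ v.2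
        simp only [cut, In, hB, Set.mem_union, Set.mem_inter_iff, Set.mem_ofPred_eq,
          Set.mem_compl_iff, Finset.mem_coe] at he ⊢
        tauto
      rcases H3 _ h5 with h | h
      · exact Or.inl (Set.Finite.of_finite_image h Subtype.val_injective.injOn)
      · refine Or.inr ((h.preimage Subtype.val_injective.injOn).subset ?_)
        intro v hv h
        exact hv (Subtype.val_injective.mem_set_image.mp h))
    ⟨x, hx⟩ ⟨y, hy⟩
  refine ⟨Subtype.val '' T, wired_of_sub subset_rfl h1, wired_of_sub ?_ h2, h3.of_sub.mono ?_⟩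
  · rintro _ ⟨e, he, rfl⟩ h
    exact he (Subtype.val_injective.mem_set_image.mp h)
  · rintro _ ⟨e, he, rfl⟩
    exact ⟨⟨e, he, rfl⟩, e.2⟩

end MG

end Pool.Agent.MP_7f38c2_co.H10
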