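import Mathlib

/-! Locally finite multigraphs with a reference orientation; out-degrees of finite sets. -/

namespace Pool.Agent.MP_7f38c2_co.H10

open Classical

structure MG (V E : Type*) where
  s : E → V
  t : E → V
  lf : ∀ v, {e | s e = v ∨ t e = v}.Finite

namespace MG

variable {V E : Type*}

/-- re-orientation -/
def orient (G : MG V E) (o : E → Bool) : MG V E where
  s e := if o e then G.s e else G.t e
  t e := if o e then G.t e else G.s e
  lf v := (G.lf v).subset (by
    intro e he
    simp only [Set.mem_ofPred_eq] at he ⊢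
    split_ifs at he <;> tauto)

lemma inc_finite (D : MG V E) {X : Set V} (hX : X.Finite) :
    {e | D.s e ∈ X ∨ D.t e ∈ X}.Finite := by
  refine (hX.biUnion (fun v _ => D.lf v)).subset ?_
  intro e he
  simp only [Set.mem_ofPred_eq, Set.mem_iUnion] at he ⊢
  rcases he with h | h
  · exact ⟨_, h, Or.inl rfl⟩
  · exact ⟨_, h, Or.inr rfl⟩

/-- arcs of `N` leaving `X` -/
def outS (D : MG V E) (N : Set E) (X : Finset V) : Set E := {e | e ∈ N ∧ D.s e ∈ X ∧ D.t e ∉ X}

def inS (D : MG V E) (X : Finset V) : Set E := {e | D.t e ∈ X ∧ D.s e ∉ X}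

lemma outS_finite (D : MG V E) (N : Set E) (X : Finset V) : (D.outS N X).Finite :=
  (D.inc_finite X.finite_toSet).subset (fun _ he => Or.inl he.2.1)

lemma inS_finite (D : MG V E) (X : Finset V) : (D.inS X).Finite :=
  (D.inc_finite X.finite_toSet).subset (fun _ he => Or.inr he.1)

noncomputable def dF (D : MG V E) (N : Set E) (X : Finset V) : ℕ := (D.outS N X).ncard

noncomputable def dout (D : MG V E) (X : Finset V) : ℕ := D.dF Set.univ X

noncomputable def din (D : MG V E) (X : Finset V) : ℕ := (D.inS X).ncard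

noncomputable def d (D : MG V E) (X : Finset V) : ℕ := D.dout X + D.din X

lemma dF_submod (D : MG V E) (N : Set E) (X Y : Finset V) :
    D.dF N (X ∩ Y) + D.dF N (X ∪ Y) ≤ D.dF N X + D.dF N Y := by
  unfold dF
  rw [← Set.ncard_union_add_ncard_inter _ _ (D.outS_finite N _) (D.outS_finite N _),
    ← Set.ncard_union_add_ncard_inter _ _ (D.outS_finite N X) (D.outS_finite N Y)]
  apply add_le_add
  · apply Set.ncard_le_ncard _ ((D.outS_finite N X).union (D.outS_finite N Y))
    intro e he
    simp only [outS, Set.mem_union, Set.mem_ofPred_eq, Finset.mem_inter, Finset.mem_union] at he ⊢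
    tauto
  · apply Set.ncard_le_ncard _ ((D.outS_finite N X).inter_of_left _)
    intro e he
    simp only [outS, Set.mem_inter_iff, Set.mem_ofPred_eq, Finset.mem_inter,
      Finset.mem_union] at he ⊢
    tauto

/-- the undirected cut -/
def cut (G : MG V E) (X : Set V) : Set E := {e | ¬ (G.s e ∈ X ↔ G.t e ∈ X)}

lemma cut_finite (G : MG V E) {X : Set V} (hX : X.Finite) : (G.cut X).Finite :=
  (G.inc_finite hX).subset (by
    intro e he
    simp only [cut, Set.mem_ofPred_eq] at he ⊢
    tauto)

lemma d_eq (G : MG V E) (X : Finset V) : G.d X = (G.cut X).ncard := by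
  unfold d dout dF din
  rw [← Set.ncard_union_eq _ (G.outS_finite _ X) (G.inS_finite X)]
  · congr 1
    ext e
    simp only [outS, inS, cut, Set.mem_union, Set.mem_ofPred_eq, Set.mem_univ, true_and,
      Finset.mem_coe]
    tauto
  · rw [Set.disjoint_left]
    intro e he he'
    exact he'.2 he.2.1

lemma cut_orient (G : MG V E) (o : E → Bool) (X : Set V) : (G.orient o).cut X = G.cut X := by
  ext e
  simp only [cut, orient, Set.mem_ofPred_eq]
  split_ifs <;> tauto

lemma d_orient (G : MG V E) (o : E → Bool) (X : Finset V) : (G.orient o).d X = G.d X := by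
  rw [d_eq, d_eq, cut_orient]

lemma ncard_fiber_sum {f : E → V} (hf : ∀ v, {e | f e = v}.Finite) (X : Finset V) :
    {e | f e ∈ X}.ncard = ∑ v ∈ X, {e | f e = v}.ncard := by
  induction X using Finset.induction_on with
  | empty => simp
  | insert a X ha ih =>
    have hX : {e | f e ∈ X}.Finite := by
      refine (X.finite_toSet.biUnion (fun v _ => hf v)).subset ?_
      intro e he
      simp only [Set.mem_ofPred_eq, Set.mem_iUnion] at he ⊢
      exact ⟨_, he, rfl⟩
    rw [Finset.sum_insert ha, ← ih, ← Set.ncard_union_eq _ (hf a) hX]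
    · congr 1
      ext e
      simp
    · rw [Set.disjoint_left]
      intro e he he'
      simp only [Set.mem_ofPred_eq] at he he'
      exact ha (he ▸ he')

/-- out-degree minus in-degree is additive -/
lemma dout_sub_din (D : MG V E) (X : Finset V) :
    (D.dout X : ℤ) - D.din X
      = ∑ v ∈ X, (({e | D.s e = v}.ncard : ℤ) - ({e | D.t e = v}.ncard : ℤ)) := by
  have hs : ∀ v, {e | D.s e = v}.Finite := fun v => (D.lf v).subset (fun _ h => Or.inl h)
  have ht : ∀ v, {e | D.t e = v}.Finite := fun v => (D.lf v).subset (fun _ h => Or.inr h)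
  have hI : {e | D.s e ∈ X ∧ D.t e ∈ X}.Finite :=
    (D.inc_finite X.finite_toSet).subset (fun _ h => Or.inl h.1)
  have h1 : {e | D.s e ∈ X}.ncard = D.dout X + {e | D.s e ∈ X ∧ D.t e ∈ X}.ncard := by
    unfold dout dF
    rw [← Set.ncard_union_eq _ (D.outS_finite _ X) hI]
    · congr 1
      ext e
      simp only [outS, Set.mem_union, Set.mem_ofPred_eq, Set.mem_univ, true_and]
      tauto
    · rw [Set.disjoint_left]
      intro e he he'
      exact he.2.2 he'.2
  have h2 : {e | D.t e ∈ X}.ncard = D.din X + {e | D.s e ∈ X ∧ D.t e ∈ X}.ncard := by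
    unfold din
    rw [← Set.ncard_union_eq _ (D.inS_finite X) hI]
    · congr 1
      ext e
      simp only [inS, Set.mem_union, Set.mem_ofPred_eq]
      tauto
    · rw [Set.disjoint_left]
      intro e he he'
      exact he.2 he'.1
  rw [Finset.sum_sub_distrib, ← Nat.cast_sum, ← Nat.cast_sum, ← ncard_fiber_sum hs,
    ← ncard_fiber_sum ht, h1, h2]
  push_cast
  ring

/-- directed reachability along arcs of `N` -/
def Reach (D : MG V E) (N : Set E) : V → V → Prop :=
  Relation.ReflTransGen fun a b => ∃ e ∈ N, D.s e = a ∧ D.t e = b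

lemma Reach.exists_out {D : MG V E} {N : Set E} {p u : V} (h : D.Reach N p u) {X : Set V}
    (hp : p ∈ X) (hu : u ∉ X) : ∃ e ∈ N, D.s e ∈ X ∧ D.t e ∉ X ∧ D.Reach N (D.t e) u := by
  induction h using Relation.ReflTransGen.head_induction_on with
  | refl => exact absurd hp hu
  | @head a c hac hcu ih =>
    obtain ⟨e, he, rfl, rfl⟩ := hac
    by_cases hc : D.t e ∈ X
    · exact ih hc
    · exact ⟨e, he, hp, hc, hcu⟩

lemma Reach.mono {D : MG V E} {N N' : Set E} (hN : N ⊆ N') {p u : V} (h : D.Reach N p u) :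
    D.Reach N' p u := by
  induction h with
  | refl => exact Relation.ReflTransGen.refl
  | tail _ hbc ih =>
    obtain ⟨e, he, h1, h2⟩ := hbc
    exact ih.tail ⟨e, hN he, h1, h2⟩

lemma Reach.step {D : MG V E} {N : Set E} {e : E} (he : e ∈ N) {u : V} (h : D.Reach N (D.t e) u) :
    D.Reach N (D.s e) u := Relation.ReflTransGen.head ⟨e, he, rfl, rfl⟩ h

lemma dout_flip (G : MG V E) (o : E → Bool) (e : E) (X : Finset V) :
    (G.orient (Function.update o e (!o e))).dout X + (if (G.orient o).s e ∈ X then 1 else 0)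
      = (G.orient o).dout X + (if (G.orient o).t e ∈ X then 1 else 0) := by
  set o' := Function.update o e (!o e) with ho'
  have hs : (G.orient o').s e = (G.orient o).t e := by
    simp only [orient, ho', Function.update_self]
    cases o e <;> simp
  have ht : (G.orient o').t e = (G.orient o).s e := by
    simp only [orient, ho', Function.update_self]
    cases o e <;> simp
  have hd : (G.orient o').outS Set.univ X \ {e} = (G.orient o).outS Set.univ X \ {e} := by
    ext f
    by_cases hf : f = e
    · simp [hf]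
    · simp [outS, orient, ho', hf]
  have key : ∀ S : Set E, S.Finite → S.ncard = (S \ {e}).ncard + (if e ∈ S then 1 else 0) := by
    intro S hS
    split_ifs with h
    · rw [Set.ncard_sdiff_singleton_add_one h hS]
    · rw [Set.sdiff_singleton_eq_self h, add_zero]
  unfold dout dF
  rw [key _ ((G.orient o').outS_finite _ X), key _ ((G.orient o).outS_finite _ X), hd]
  simp only [outS, Set.mem_ofPred_eq, Set.mem_univ, true_and, hs, ht]
  by_cases h1 : (G.orient o).s e ∈ X <;> by_cases h2 : (G.orient o).t e ∈ X <;> simp [h1, h2]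

/-- reachability within `n` steps -/
def RN (D : MG V E) (u : V) : ℕ → V → Prop
  | 0, p => p = u
  | n + 1, p => RN D u n p ∨ ∃ e, D.s e = p ∧ RN D u n (D.t e)

lemma RN.mono {D : MG V E} {u p : V} {m n : ℕ} (h : D.RN u m p) (hmn : m ≤ n) : D.RN u n p := by
  induction hmn with
  | refl => exact h
  | step _ ih => exact Or.inl ih

lemma RN.reach {D : MG V E} {u : V} : ∀ {n : ℕ} {p : V}, D.RN u n p → D.Reach Set.univ p u
  | 0, _, h => h ▸ Relation.ReflTransGen.refl
  | _ + 1, _, Or.inl h => RN.reach h
  | _ + 1, _, Or.inr ⟨e, he, h⟩ => he ▸ Reach.step (Set.mem_univ e) (RN.reach h)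

lemma Reach.rn {D : MG V E} {u p : V} (h : D.Reach Set.univ p u) : ∃ n, D.RN u n p := by
  induction h using Relation.ReflTransGen.head_induction_on with
  | refl => exact ⟨0, rfl⟩
  | @head a c hac _ ih =>
    obtain ⟨e, -, rfl, rfl⟩ := hac
    obtain ⟨n, hn⟩ := ih
    exact ⟨n + 1, Or.inr ⟨e, rfl, hn⟩⟩

lemma exists_reverse (G : MG V E) (o : E → Bool) {p u : V}
    (h : (G.orient o).Reach Set.univ p u) :
    ∃ o' : E → Bool, (∀ X : Finset V, (G.orient o').dout X + (if p ∈ X then 1 else 0)
      = (G.orient o).dout X + (if u ∈ X then 1 else 0)) ∧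
      ∀ e, o' e ≠ o e → (G.orient o).Reach Set.univ ((G.orient o).t e) u := by
  obtain ⟨n, hn⟩ := h.rn
  suffices H : ∃ o' : E → Bool, (∀ X : Finset V, (G.orient o').dout X + (if p ∈ X then 1 else 0)
      = (G.orient o).dout X + (if u ∈ X then 1 else 0)) ∧
      ∀ e, o' e ≠ o e → ∃ m < n, (G.orient o).RN u m ((G.orient o).t e) by
    obtain ⟨o', h1, h2⟩ := H
    exact ⟨o', h1, fun e he => (h2 e he).choose_spec.2.reach⟩
  clear h
  induction n generalizing p with
  | zero =>
    obtain rfl : p = u := hn
    exact ⟨o, fun _ => rfl, fun e he => absurd rfl he⟩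
  | succ n ih =>
    by_cases hp : (G.orient o).RN u n p
    · obtain ⟨o', h1, h2⟩ := ih hp
      refine ⟨o', h1, fun e he => ?_⟩
      obtain ⟨m, hm, h⟩ := h2 e he
      exact ⟨m, by omega, h⟩
    · obtain ⟨e, rfl, he⟩ := hn.resolve_left hp
      obtain ⟨o', h1, h2⟩ := ih he
      have hoe : o' e = o e := by
        by_contra hne
        obtain ⟨m, hm, h⟩ := h2 e hne
        exact hp (RN.mono (m := m + 1) (Or.inr ⟨e, rfl, h⟩) hm)
      refine ⟨Function.update o' e (!o' e), fun X => ?_, fun f hf => ?_⟩
      · have h3 := G.dout_flip o' e X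
        have hs : (G.orient o').s e = (G.orient o).s e := by simp [orient, hoe]
        have ht : (G.orient o').t e = (G.orient o).t e := by simp [orient, hoe]
        rw [hs, ht] at h3
        rw [h3, h1]
      · by_cases hfe : f = e
        · subst hfe
          exact ⟨n, by omega, he⟩
        · rw [Function.update_of_ne hfe] at hf
          obtain ⟨m, hm, h⟩ := h2 f hf
          exact ⟨m, by omega, h⟩

end MG

/-- compactness: limits of finitely-valued functions along a filter -/
lemma exists_limit {ι E β : Type*} [Finite β] (𝓕 : Filter ι) [𝓕.NeBot] (o : ι → E → β) :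
    ∃ o' : E → β, ∀ (F : Set E), F.Finite → ∀ P : ι → Prop, (∀ᶠ i in 𝓕, P i) →
      ∃ i, P i ∧ ∀ e ∈ F, o i e = o' e := by
  have h : ∀ e, ∃ b, ∀ᶠ i in (Ultrafilter.of 𝓕 : Filter ι), o i e = b := by
    intro e
    have := (Ultrafilter.eventually_exists_iff (f := Ultrafilter.of 𝓕)
      (P := fun b i => o i e = b)).mp (Filter.Eventually.of_forall fun i => ⟨_, rfl⟩)
    exact this
  choose o' ho' using h
  refine ⟨o', fun F hF P hP => ?_⟩
  have h1 : ∀ᶠ i in (Ultrafilter.of 𝓕 : Filter ι), ∀ e ∈ F, o i e = o' e :=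
    (Filter.eventually_all_finite hF).mpr fun e _ => ho' e
  exact ((hP.filter_mono (Ultrafilter.of_le 𝓕)).and h1).exists

end Pool.Agent.MP_7f38c2_co.H10
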