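import Pool.Agent.MP_7f38c2_co.H10.Parity

/-! Euler tours of finite even edge sets and the extension step. -/

namespace Pool.Agent.MP_7f38c2_co.H10

open Classical

namespace MG

variable {V E : Type*}

inductive Wk (G : MG V E) : V → List E → V → Prop
  | nil (a : V) : Wk G a [] a
  | cons {a b c : V} {e : E} {l : List E} : G.Joins e a b → Wk G b l c → Wk G a (e :: l) c

lemma Wk.append {G : MG V E} {a b c : V} {l l' : List E} (h : G.Wk a l b) (h' : G.Wk b l' c) :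
    G.Wk a (l ++ l') c := by
  induction h with
  | nil => exact h'
  | cons h _ ih => exact Wk.cons h (ih h')

lemma Wk.reverse {G : MG V E} {a b : V} {l : List E} (h : G.Wk a l b) : G.Wk b l.reverse a := by
  induction h with
  | nil => exact Wk.nil _
  | cons h _ ih =>
    rw [List.reverse_cons]
    exact ih.append (Wk.cons h.symm (Wk.nil _))

lemma Joins.eq_or {G : MG V E} {e : E} {a b u w : V} (h : G.Joins e a b) (h' : G.Joins e u w) :
    u = a ∨ u = b := by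
  rcases h with ⟨rfl, rfl⟩ | ⟨rfl, rfl⟩ <;> rcases h' with ⟨rfl, rfl⟩ | ⟨rfl, rfl⟩ <;> simp

lemma Wk.split {G : MG V E} {a c u w : V} {l : List E} (h : G.Wk a l c) {e : E} (he : e ∈ l)
    (hu : G.Joins e u w) : ∃ A B, l = A ++ B ∧ G.Wk a A u ∧ G.Wk u B c := by
  induction h with
  | nil => simp at he
  | @cons a b c f l h hl ih =>
    rcases List.mem_cons.mp he with rfl | he
    · rcases h.eq_or hu with rfl | rfl
      · exact ⟨[], e :: l, rfl, Wk.nil _, Wk.cons h hl⟩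
      · exact ⟨[e], l, rfl, Wk.cons h (Wk.nil _), hl⟩
    · obtain ⟨A, B, rfl, h1, h2⟩ := ih he
      exact ⟨f :: A, B, rfl, Wk.cons h h1, h2⟩

lemma Wk.bd_eq {G : MG V E} {a c : V} {l : List E} (h : G.Wk a l c) (hl : l.Nodup) (v : V) :
    G.bd (ind {e | e ∈ l}) v = dl a v + dl c v := by
  induction h with
  | nil =>
    rw [z2_add_self, ← G.bd_zero v]
    exact G.bd_congr fun e _ => by simp [ind]
  | @cons a b c f l h _ ih =>
    obtain ⟨h1, h2⟩ := List.nodup_cons.mp hl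
    have h3 : {e | e ∈ f :: l} = {f} ∪ {e | e ∈ l} := by
      ext e
      simp
    rw [h3, ind_union (by simpa using h1), bd_add, bd_single, ih h2, h.mu]
    linear_combination z2_add_self (dl b v)

lemma Wk.ne_nil {G : MG V E} {a c : V} {l : List E} (h : G.Wk a l c) (hac : a ≠ c) : l ≠ [] := by
  rintro rfl
  cases h
  exact hac rfl

lemma exists_trail (G : MG V E) {N : Set E} (hN : N.Finite) {a b : V}
    (h : ∀ v, G.bd (ind N) v = dl a v + dl b v) :
    ∃ l, G.Wk a l b ∧ l.Nodup ∧ ∀ e ∈ l, e ∈ N := by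
  induction hn : N.ncard using Nat.strong_induction_on generalizing N a with
  | h n ih =>
  by_cases hab : a = b
  · exact ⟨[], hab ▸ Wk.nil _, List.nodup_nil, by simp⟩
  obtain ⟨e, he, u, hu⟩ := exists_of_bd_ne (G := G) (N := N) (v := a) (by
    rw [h]
    simp [dl, Ne.symm hab])
  obtain ⟨l, h1, h2, h3⟩ := ih _ (hn ▸ Set.ncard_sdiff_singleton_lt_of_mem he hN) (a := u)
    hN.sdiff (fun v => by
      rw [ind_sdiff (Set.singleton_subset_iff.mpr he), bd_add, bd_single, h, hu.mu]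
      linear_combination z2_add_self (dl a v)) rfl
  refine ⟨e :: l, Wk.cons hu h1, List.nodup_cons.mpr ⟨fun h => (h3 e h).2 rfl, h2⟩, ?_⟩
  intro f hf
  rcases List.mem_cons.mp hf with rfl | hf
  · exact he
  · exact (h3 f hf).1

lemma finite_euler (G : MG V E) {N : Set E} (hN : N.Finite) (hev : G.Ev N) {v v' : V}
    (hc : ∀ e ∈ N, G.Conn N v (G.s e)) (hv' : G.Conn N v v') :
    ∃ A B, G.Wk v A v' ∧ G.Wk v' B v ∧ (A ++ B).Nodup ∧ ∀ e, e ∈ A ++ B ↔ e ∈ N := by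
  have hex : ∃ n, ∃ l, G.Wk v l v ∧ l.Nodup ∧ (∀ e ∈ l, e ∈ N) ∧ (N \ {e | e ∈ l}).ncard = n :=
    ⟨_, [], Wk.nil _, List.nodup_nil, by simp, rfl⟩
  obtain ⟨l, h1, h2, h3, h4⟩ := Nat.find_spec hex
  have h5 : ∀ u, (∃ A B, l = A ++ B ∧ G.Wk v A u ∧ G.Wk u B v) → ∀ e ∈ N, ∀ w, G.Joins e u w →
      e ∈ l := by
    rintro u ⟨A, B, rfl, hA, hB⟩ e he w hw
    by_contra hel
    have h6 : e ∈ N \ {f | f ∈ A ++ B} := ⟨he, hel⟩
    obtain ⟨l', h7, h8, h9⟩ := G.exists_trail (N := (N \ {f | f ∈ A ++ B}) \ {e}) hN.sdiff.sdiff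
      (a := w) (b := u) (fun x => by
        rw [ind_sdiff (Set.singleton_subset_iff.mpr h6), ind_sdiff (N' := {f | f ∈ A ++ B}) h3, bd_add, bd_add, bd_single,
          hev, h1.bd_eq h2, hw.mu]
        linear_combination z2_add_self (dl v x))
    refine Nat.find_min hex (m := (N \ {f | f ∈ A ++ (e :: l' ++ B)}).ncard) ?_
      ⟨_, hA.append ((Wk.cons hw h7).append hB), ?_, ?_, rfl⟩
    · rw [← h4]
      refine Set.ncard_lt_ncard ⟨fun f hf => ⟨hf.1, fun h => hf.2 ?_⟩, fun h => (h h6).2 ?_⟩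
        hN.sdiff
      · simp only [Set.mem_ofPred_eq, List.mem_append] at h ⊢
        tauto
      · simp
    · rw [(List.perm_append_comm_assoc A (e :: l') B).nodup_iff, List.nodup_append]
      refine ⟨List.nodup_cons.mpr ⟨fun h => (h9 e h).2 rfl, h8⟩, h2, ?_⟩
      rintro f hf g hg rfl
      rcases List.mem_cons.mp hf with rfl | hf
      · exact hel hg
      · exact (h9 f hf).1.2 hg
    · intro f hf
      simp only [List.mem_append, List.mem_cons] at hf h3
      rcases hf with hf | (rfl | hf) | hf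
      · exact h3 f (Or.inl hf)
      · exact he
      · exact (h9 f hf).1.1
      · exact h3 f (Or.inr hf)
  have h6 : ∀ u, G.Conn N v u → ∃ A B, l = A ++ B ∧ G.Wk v A u ∧ G.Wk u B v := by
    intro u hu
    induction hu with
    | refl => exact ⟨[], l, rfl, Wk.nil _, h1⟩
    | tail _ hbc ih =>
      obtain ⟨e, he, h⟩ := hbc
      exact h1.split (h5 _ ih e he _ h) h.symm
  obtain ⟨A, B, rfl, hA, hB⟩ := h6 v' hv'
  exact ⟨A, B, hA, hB, h2, fun e => ⟨h3 e, fun he =>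
    h5 _ (h6 _ (hc e he)) e he _ (Or.inl ⟨rfl, rfl⟩)⟩⟩

lemma exists_ends (G : MG V E) {N : Set E} (hN : N.Finite) : ∃ A : Finset V, N ⊆ G.In A :=
  ⟨((hN.image G.s).union (hN.image G.t)).toFinset, fun e he => by
    rw [Set.Finite.coe_toFinset]
    exact ⟨Or.inl ⟨e, he, rfl⟩, Or.inr ⟨e, he, rfl⟩⟩⟩

lemma Conn.restrict {G : MG V E} {N : Set E} {a b : V} (h : G.Conn N a b) :
    G.Conn {e | e ∈ N ∧ G.s e ∈ {u | G.Conn N a u}} a b := by
  induction h with
  | refl => exact Conn.refl _ _ _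
  | tail hb hbc ih =>
    obtain ⟨e, he, h⟩ := hbc
    refine ih.trans (Conn.edge ⟨he, ?_⟩ h)
    rcases h with ⟨h1, -⟩ | ⟨h1, h2⟩
    · exact h1 ▸ hb
    · exact Conn.trans hb (Conn.edge he (Or.inr ⟨rfl, h2⟩))

lemma exists_even_sub {G : MG V E} (hG : G.OneEnd Set.univ) [Infinite V] {N : Set E}
    (hN : Nᶜ.Finite) (hev : G.Ev N) (Y : Finset V) :
    ∃ K : Set E, K.Finite ∧ G.Ev K ∧ K ⊆ N ∧ N ∩ G.Inc Y ⊆ K := by
  obtain ⟨Y1, hY1⟩ := G.exists_ends hN
  obtain ⟨S, hS, hS'⟩ := hG (Y ∪ Y1)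
  have h1 : G.In (↑S)ᶜ ⊆ N := by
    intro e he
    by_contra h
    exact he.1 (hS (Finset.mem_union_right _ (hY1 h).1))
  have h2 : (N ∩ G.Inc S).Finite := (G.inc_finite S.finite_toSet).inter_of_right _
  obtain ⟨A, hA⟩ := G.exists_ends h2
  obtain ⟨z, hz⟩ := Infinite.exists_notMem_finset S
  set b := G.bd (ind (N ∩ G.Inc S)) with hb
  have h3 : ∀ u ∈ S, b u = 0 := by
    intro u hu
    rw [← hev u]
    refine G.bd_congr fun e he => ?_
    have : e ∈ G.Inc S := by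
      rcases he with rfl | rfl
      exacts [Or.inl hu, Or.inr hu]
    simp [ind, this]
  have h4 : ∀ u ∉ A, b u = 0 := by
    intro u hu
    by_contra h
    obtain ⟨e, he, w, ⟨h5, -⟩ | ⟨-, h5⟩⟩ := exists_of_bd_ne h
    · exact hu (h5 ▸ (hA he).1)
    · exact hu (h5 ▸ (hA he).2)
  obtain ⟨j, h5, h6, h7⟩ := chain_sum (A \ S) b (fun _ => z)
    (fun v hv => hS' v z (Finset.mem_sdiff.mp hv).2 hz)
  have h8 : ∑ v ∈ A \ S, b v = 0 := by
    rw [← G.handshake h2 hA]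
    refine Finset.sum_subset Finset.sdiff_subset fun u hu hu' => h3 u ?_
    by_contra h
    exact hu' (Finset.mem_sdiff.mpr ⟨hu, h⟩)
  refine ⟨(N ∩ G.Inc S) ∪ {e | j e ≠ 0}, h2.union h6, fun u => ?_,
    Set.union_subset Set.inter_subset_left fun e he => h1 (h5 he).2,
    fun e he => Or.inl ⟨he.1, G.Inc_mono (fun u hu => hS (Finset.mem_union_left _ hu)) he.2⟩⟩
  rw [ind_union (Set.disjoint_left.mpr fun e he he' => he.2.elim (h5 he').2.1 (h5 he').2.2),
    ind_support, bd_add, h7, sum_mul_dl, ← Finset.sum_mul, h8, zero_mul, add_zero, ← hb]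
  split_ifs with h
  · exact z2_add_self _
  · rw [add_zero]
    by_cases h9 : u ∈ A
    · refine h3 u ?_
      by_contra h10
      exact h (Finset.mem_sdiff.mpr ⟨h9, h10⟩)
    · exact h4 u h9

/-- the invariant of the construction -/
def Good (G : MG V E) (N : Set E) (v : V) : Prop :=
  Nᶜ.Finite ∧ G.Ev N ∧ ∀ e ∈ N, G.Conn N v (G.s e)

lemma Good.extend {G : MG V E} (hG : G.OneEnd Set.univ) [Infinite V] {N : Set E} {v : V}
    (h : G.Good N v) (e0 : E) : ∃ N' v' A B, G.Good N' v' ∧ v ≠ v' ∧ N' ⊆ N ∧ e0 ∉ N' ∧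
      G.Wk v A v' ∧ G.Wk v' B v ∧ (A ++ B).Nodup ∧ ∀ e, e ∈ A ++ B ↔ e ∈ N \ N' := by
  obtain ⟨hN, hev, hc⟩ := h
  obtain ⟨Y, hY⟩ : ∃ Y : Finset V, e0 ∈ N → G.Conn (N ∩ G.Inc Y) v (G.s e0) := by
    by_cases h0 : e0 ∈ N
    · obtain ⟨Y, hY⟩ := (hc e0 h0).support
      exact ⟨Y, fun _ => hY⟩
    · exact ⟨∅, fun h => absurd h h0⟩
  obtain ⟨K, hK1, hK2, hK3, hK4⟩ := exists_even_sub hG hN hev (insert v (insert (G.s e0) Y))
  set M := {e | e ∈ K ∧ G.s e ∈ {u | G.Conn K v u}} with hM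
  have hM1 : M.Finite := hK1.subset fun e he => he.1
  have hM2 : G.Ev M := hK2.restrict fun e he => not_mem_cut_conn he
  have hM3 : M ⊆ N := fun e he => hK3 he.1
  have hM4 : ∀ e ∈ M, G.Conn M v (G.s e) := fun e he => Conn.restrict he.2
  have hM5 : e0 ∈ N → e0 ∈ M := fun h0 => ⟨hK4 ⟨h0, Or.inl (by simp)⟩, (hY h0).mono
    fun e he => hK4 ⟨he.1, G.Inc_mono (fun u hu => by simp [Finset.mem_coe.mp hu]) he.2⟩⟩
  have hM6 : ∀ e ∈ N, ∀ u, G.Joins e u v → e ∈ M := by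
    rintro e he u hu
    have h1 : e ∈ K := hK4 ⟨he, hu.symm.imp (fun h => by simp [h.1]) (fun h => by simp [h.2])⟩
    refine ⟨h1, ?_⟩
    rcases hu with ⟨-, h2⟩ | ⟨h2, -⟩
    · exact Conn.edge h1 (Or.inr ⟨rfl, h2⟩)
    · exact h2 ▸ Conn.refl _ _ _
  obtain ⟨Y1, hY1⟩ := G.exists_ends (hN.union hM1)
  obtain ⟨S, hS, hS'⟩ := hG (insert v Y1)
  have h1 : G.In (↑S)ᶜ ⊆ N \ M := by
    intro e he
    by_contra h
    refine he.1 (hS (Finset.mem_insert_of_mem (hY1 ?_).1))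
    by_contra h'
    simp only [Set.mem_union, Set.mem_compl_iff, not_or, not_not] at h'
    exact h h'
  obtain ⟨z, hz⟩ := Infinite.exists_notMem_finset S
  set C := {u | G.Conn (N \ M) z u} with hC
  have h2 : ∀ u ∉ S, u ∈ C := fun u hu => (hS' z u hz hu).mono fun e he => h1 he.2
  set N' := {e | e ∈ N \ M ∧ G.s e ∈ C} with hN'
  have h3 : N'ᶜ.Finite := by
    refine (G.inc_finite S.finite_toSet).subset fun e he => ?_
    by_contra h
    simp only [Set.mem_ofPred_eq, not_or] at h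
    exact he ⟨h1 h, h2 _ h.1⟩
  have h4 : G.Ev N' := (hev.sdiff hM2 hM3).restrict fun e he => not_mem_cut_conn he
  have h5 : N' ⊆ N := fun e he => he.1.1
  have h6 : M ⊆ N \ N' := fun e he => ⟨hM3 he, fun h => h.1.2 he⟩
  have h7 : ∀ e ∈ M, ∀ a b, G.Joins e a b → G.Conn (N \ N') v b := by
    rintro e he a b (⟨-, rfl⟩ | ⟨rfl, -⟩)
    · exact ((hM4 e he).trans (Conn.edge he (Or.inl ⟨rfl, rfl⟩))).mono h6
    · exact (hM4 e he).mono h6
  have h8 : ∀ e ∈ N \ M, ∀ a b, G.Joins e a b → a ∈ C → b ∈ C :=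
    fun e he a b hab ha => Conn.trans ha (Conn.edge he hab)
  have h9 : ∀ u, G.Conn N v u → G.Conn (N \ N') v u ∨ u ∈ C := by
    intro u hu
    induction hu with
    | refl => exact Or.inl (Conn.refl _ _ _)
    | @tail a b _ hbc ih =>
      obtain ⟨e, he, h⟩ := hbc
      by_cases heM : e ∈ M
      · exact Or.inl (h7 e heM _ _ h)
      by_cases ha : a ∈ C
      · exact Or.inr (h8 e ⟨he, heM⟩ _ _ h ha)
      refine Or.inl ((ih.resolve_right ha).trans (Conn.edge ⟨he, fun h' => ha ?_⟩ h))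
      rcases h with ⟨rfl, -⟩ | ⟨rfl, rfl⟩
      · exact h'.2
      · exact h8 e h'.1 _ _ (Or.inl ⟨rfl, rfl⟩) h'.2
  have h10 : v ∉ C := by
    intro h
    rcases Relation.ReflTransGen.cases_tail h with rfl | ⟨c, -, e, he, h⟩
    · exact hz (hS (Finset.mem_insert_self _ _))
    · exact he.2 (hM6 e he.1 c h)
  have h11 : G.Conn N v z := by
    obtain ⟨z', hz'⟩ := Infinite.exists_notMem_finset (insert z S)
    rw [Finset.mem_insert, not_or] at hz'
    rcases Relation.ReflTransGen.cases_tail (hS' z' z hz'.2 hz) with h | ⟨c, -, e, he, h⟩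
    · exact absurd h.symm hz'.1
    · have h12 := (h1 he.2).1
      rcases h with ⟨-, rfl⟩ | ⟨rfl, -⟩
      · exact (hc e h12).trans (Conn.edge h12 (Or.inl ⟨rfl, rfl⟩))
      · exact hc e h12
  obtain ⟨v', hv1, hv2⟩ : ∃ v' ∈ C, G.Conn (N \ N') v v' := by
    by_contra hcon
    push Not at hcon
    have h12 : ∀ u, G.Conn N v u → u ∉ C := by
      intro u hu
      induction hu with
      | refl => exact h10
      | @tail a b _ hbc ih =>
        obtain ⟨e, he, h⟩ := hbc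
        intro hb
        by_cases heM : e ∈ M
        · exact hcon b hb (h7 e heM _ _ h)
        · exact ih (h8 e ⟨he, heM⟩ _ _ h.symm hb)
    exact h12 z h11 (Conn.refl _ _ _)
  obtain ⟨A, B, h12, h13, h14, h15⟩ := G.finite_euler (N := N \ N') (h3.subset fun e he => he.2)
    (hev.sdiff h4 h5) (v := v) (v' := v') (fun e he => by
      by_cases heM : e ∈ M
      · exact (hM4 e heM).mono h6
      · exact (h9 _ (hc e he.1)).resolve_right fun h => he.2 ⟨⟨he.1, heM⟩, h⟩) hv2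
  refine ⟨N', v', A, B, ⟨h3, h4, fun e he => ?_⟩, fun h => h10 (h ▸ hv1), h5,
    fun h => h.1.2 (hM5 h.1.1), h12, h13, h14, h15⟩
  exact (Conn.restrict hv1).symm.trans (Conn.restrict he.2)

end MG

end Pool.Agent.MP_7f38c2_co.H10
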