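import Pool.Agent.MP_7f38c2_co.H10.Merge

/-! Two disjoint arc sets leaving every finite set, one of which links two given vertices. -/

namespace Pool.Agent.MP_7f38c2_co.H10

open Classical

namespace MG

variable {V E : Type*}

/-- every nonempty finite set is left by an arc of `N` -/
def OutW (D : MG V E) (N : Set E) : Prop :=
  ∀ X : Finset V, X.Nonempty → (D.outS N X).Nonempty

lemma exists_greedy {D : MG V E} (hD : D.Valid 0 Set.univ) (R0 : Set V) (F0 : Set E)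
    (h0 : ∀ e ∈ F0, D.s e ∈ R0) (h1 : D.OutW F0ᶜ) :
    ∃ F : Set E, F0 ⊆ F ∧ (∀ e ∈ F, ∃ r ∈ R0, D.Reach F (D.s e) r) ∧ D.OutW Fᶜ ∧
      ∀ e, (∃ r ∈ R0, D.Reach F (D.t e) r) → ∃ r ∈ R0, D.Reach F (D.s e) r := by
  obtain ⟨F, hF0, hF⟩ := zorn_subset_nonempty
    {F : Set E | (∀ e ∈ F, ∃ r ∈ R0, D.Reach F (D.s e) r) ∧ D.OutW Fᶜ} (by
      intro c hc hch hne
      refine ⟨⋃₀ c, ⟨?_, ?_⟩, fun s hs => Set.subset_sUnion_of_mem hs⟩
      · rintro e ⟨F, hF, he⟩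
        obtain ⟨r, hr, h⟩ := (hc hF).1 e he
        exact ⟨r, hr, h.mono (Set.subset_sUnion_of_mem hF)⟩
      · intro X hX
        by_contra hcon
        have h2 : D.outS Set.univ X ⊆ ⋃₀ c := by
          intro e he
          by_contra h
          exact hcon ⟨e, h, he.2⟩
        obtain ⟨F, hF, h3⟩ := hch.directedOn.exists_mem_subset_of_finset_subset_biUnion hne
          (f := id) (s := (D.outS_finite Set.univ X).toFinset) (by
            simpa [Set.sUnion_eq_biUnion] using h2)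
        obtain ⟨e, he⟩ := (hc hF).2 X hX
        exact he.1 (h3 (by simpa using (show e ∈ D.outS Set.univ X from ⟨trivial, he.2⟩))))
    F0 ⟨fun e he => ⟨_, h0 e he, Relation.ReflTransGen.refl⟩, h1⟩
  obtain ⟨hFa, hFb⟩ := hF.prop
  refine ⟨F, hF0, hFa, hFb, ?_⟩
  set R := {v | ∃ r ∈ R0, D.Reach F v r} with hR
  have hadd : ∀ e, D.s e ∉ R → D.t e ∈ R →
      ∃ X : Finset V, D.s e ∈ X ∧ D.t e ∉ X ∧ D.dF Fᶜ X ≤ 1 := by
    intro e hs ht
    have heF : e ∉ F := fun h => hs (hFa e h)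
    have h2 : ¬ D.OutW (insert e F)ᶜ := by
      intro h
      refine heF (hF.le_of_ge (y := insert e F) ⟨?_, h⟩ (Set.subset_insert _ _) (Set.mem_insert _ _))
      rintro f (rfl | hf)
      · obtain ⟨r, hr, h⟩ := ht
        exact ⟨r, hr, Reach.step (Set.mem_insert _ _) (h.mono (Set.subset_insert _ _))⟩
      · obtain ⟨r, hr, h⟩ := hFa f hf
        exact ⟨r, hr, h.mono (Set.subset_insert _ _)⟩
    simp only [OutW, not_forall] at h2
    obtain ⟨X, hX, h3⟩ := h2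
    have h4 : D.outS Fᶜ X ⊆ {e} := by
      intro f hf
      by_contra h
      exact h3 ⟨f, fun h' => h'.elim h hf.1, hf.2⟩
    obtain ⟨f, hf⟩ := hFb X hX
    obtain rfl : f = e := h4 hf
    refine ⟨X, hf.2.1, hf.2.2, ?_⟩
    exact (Set.ncard_le_ncard h4 (Set.finite_singleton _)).trans (by simp)
  intro e ht
  by_contra hs
  have hex : ∃ n, ∃ X : Finset V, X.card = n ∧ (∃ v ∈ X, v ∉ R) ∧ D.dF Fᶜ X ≤ 1 := by
    obtain ⟨X, h2, -, h3⟩ := hadd e hs ht
    exact ⟨_, X, rfl, ⟨_, h2, hs⟩, h3⟩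
  obtain ⟨X, hXc, ⟨v, hvX, hvR⟩, hX1⟩ := Nat.find_spec hex
  set X0 := X.filter (fun v => v ∉ R) with hX0
  have h2 := hD X0 ⟨v, Finset.mem_filter.mpr ⟨hvX, hvR⟩⟩ (Set.subset_univ _)
  simp only [Pi.zero_apply, Finset.sum_const_zero, add_zero] at h2
  obtain ⟨f, hf, hf'⟩ : ∃ f ∈ D.outS Set.univ X0, f ∉ D.outS Fᶜ X := by
    by_contra hcon
    push Not at hcon
    have := Set.ncard_le_ncard hcon (D.outS_finite _ _)
    unfold dout dF at *
    omega
  obtain ⟨-, hfs, hft⟩ := hf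
  obtain ⟨hfX, hfR⟩ := Finset.mem_filter.mp hfs
  have hftX : D.t f ∈ X := by
    by_contra h
    exact hf' ⟨fun h' => hfR (hFa f h'), hfX, h⟩
  have hftR : D.t f ∈ R := by
    by_contra h
    exact hft (Finset.mem_filter.mpr ⟨hftX, h⟩)
  obtain ⟨X', h3, h4, h5⟩ := hadd f hfR hftR
  have h6 := D.dF_submod Fᶜ X X'
  have h7 : 0 < D.dF Fᶜ (X ∪ X') :=
    (Set.ncard_pos (D.outS_finite _ _)).mpr (hFb _ ⟨_, Finset.mem_union_left _ hfX⟩)
  have h8 : (X ∩ X').card < X.card := Finset.card_lt_card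
    ⟨Finset.inter_subset_left, fun h => h4 (Finset.mem_inter.mp (h hftX)).2⟩
  exact Nat.find_min hex (hXc ▸ h8) ⟨X ∩ X', rfl, ⟨_, Finset.mem_inter.mpr ⟨hfX, h3⟩, hfR⟩,
    by omega⟩

lemma Valid.outW {D : MG V E} (hD : D.Valid 0 Set.univ) : D.OutW Set.univ := by
  intro X hX
  have h2 := hD X hX (Set.subset_univ _)
  simp only [Pi.zero_apply, Finset.sum_const_zero, add_zero] at h2
  exact (Set.ncard_pos (D.outS_finite _ _)).mp (by unfold dout dF at h2; omega)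

lemma exists_split {D : MG V E} (hD : D.Valid 0 Set.univ) :
    ∃ F : Set E, D.OutW F ∧ D.OutW Fᶜ := by
  have H : ∀ Y : Finset V, ∃ F : Set E, D.OutW Fᶜ ∧
      ∀ X : Finset V, X.Nonempty → X ⊆ Y → (D.outS F X).Nonempty := by
    intro Y
    obtain ⟨F, -, -, h2, h3⟩ := exists_greedy hD (↑Y)ᶜ ∅ (by simp) (by simpa using hD.outW)
    refine ⟨F, h2, fun X ⟨v, hv⟩ hXY => ?_⟩
    have h4 : ∃ r ∈ (↑Y : Set V)ᶜ, D.Reach F v r := by
      by_contra hcon
      obtain ⟨e, -, h5, h6⟩ := hD.outW (Y.filter fun v => ¬ ∃ r ∈ (↑Y : Set V)ᶜ, D.Reach F v r)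
        ⟨v, Finset.mem_filter.mpr ⟨hXY hv, hcon⟩⟩
      refine (Finset.mem_filter.mp h5).2 (h3 e ?_)
      by_contra h7
      refine h6 (Finset.mem_filter.mpr ⟨?_, h7⟩)
      by_contra h8
      exact h7 ⟨_, h8, Relation.ReflTransGen.refl⟩
    obtain ⟨r, hr, h5⟩ := h4
    obtain ⟨e, h6, h7, h8, -⟩ := h5.exists_out (X := (X : Set V)) hv (fun h => hr (hXY h))
    exact ⟨e, h6, h7, h8⟩
  choose F hF using H
  obtain ⟨o, ho⟩ := exists_limit (Filter.atTop : Filter (Finset V)) (fun Y e => e ∈ F Y)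
  refine ⟨{e | o e}, fun X hX => ?_, fun X hX => ?_⟩
  · obtain ⟨Y, hY, h⟩ := ho _ (D.outS_finite Set.univ X) (fun Y => X ≤ Y)
      (Filter.eventually_ge_atTop X)
    obtain ⟨e, he⟩ := (hF Y).2 X hX hY
    exact ⟨e, (h e ⟨trivial, he.2⟩).mp he.1, he.2⟩
  · obtain ⟨Y, hY, h⟩ := ho _ (D.outS_finite Set.univ X) (fun Y => X ≤ Y)
      (Filter.eventually_ge_atTop X)
    obtain ⟨e, he⟩ := (hF Y).1 X hX
    exact ⟨e, fun h' => he.1 ((h e ⟨trivial, he.2⟩).mpr h'), he.2⟩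

/-- `e` joins `a` and `b` -/
def Joins (G : MG V E) (e : E) (a b : V) : Prop :=
  (G.s e = a ∧ G.t e = b) ∨ (G.s e = b ∧ G.t e = a)

lemma Joins.symm {G : MG V E} {e : E} {a b : V} (h : G.Joins e a b) : G.Joins e b a := Or.symm h

/-- undirected connectivity along edges of `N` -/
def Conn (G : MG V E) (N : Set E) : V → V → Prop :=
  Relation.ReflTransGen fun a b => ∃ e ∈ N, G.Joins e a b

lemma Conn.refl (G : MG V E) (N : Set E) (a : V) : G.Conn N a a := Relation.ReflTransGen.refl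

lemma Conn.trans {G : MG V E} {N : Set E} {a b c : V} (h : G.Conn N a b) (h' : G.Conn N b c) :
    G.Conn N a c := Relation.ReflTransGen.trans h h'

lemma Conn.edge {G : MG V E} {N : Set E} {a b : V} {e : E} (he : e ∈ N) (h : G.Joins e a b) :
    G.Conn N a b := Relation.ReflTransGen.single ⟨e, he, h⟩

lemma Conn.symm {G : MG V E} {N : Set E} {a b : V} (h : G.Conn N a b) : G.Conn N b a := by
  induction h with
  | refl => exact Conn.refl _ _ _
  | tail _ hbc ih =>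
    obtain ⟨e, he, h⟩ := hbc
    exact (Conn.edge he h.symm).trans ih

lemma Conn.mono {G : MG V E} {N N' : Set E} (hN : N ⊆ N') {a b : V} (h : G.Conn N a b) :
    G.Conn N' a b := by
  induction h with
  | refl => exact Conn.refl _ _ _
  | tail _ hbc ih =>
    obtain ⟨e, he, h⟩ := hbc
    exact ih.trans (Conn.edge (hN he) h)

lemma Reach.conn {G : MG V E} {o : E → Bool} {N : Set E} {a b : V}
    (h : (G.orient o).Reach N a b) : G.Conn N a b := by
  induction h with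
  | refl => exact Conn.refl _ _ _
  | tail _ hbc ih =>
    obtain ⟨e, he, h1, h2⟩ := hbc
    refine ih.trans (Conn.edge he ?_)
    simp only [orient] at h1 h2
    split_ifs at h1 h2
    · exact Or.inl ⟨h1, h2⟩
    · exact Or.inr ⟨h2, h1⟩

lemma reach_infinite {D : MG V E} (hD : D.OutW Set.univ) (x : V) :
    {u | D.Reach Set.univ x u}.Infinite := by
  intro h
  obtain ⟨e, -, h1, h2⟩ := hD h.toFinset ⟨x, h.mem_toFinset.mpr Relation.ReflTransGen.refl⟩
  simp only [Set.Finite.mem_toFinset, Set.mem_ofPred_eq] at h1 h2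
  exact h2 (Relation.ReflTransGen.tail h1 ⟨e, trivial, rfl, rfl⟩)

theorem core (G : MG V E) {w : V → ℕ} {m : ℕ}
    (H1 : ∀ X : Finset V, X.Nonempty → 4 ≤ G.d X + ∑ v ∈ X, w v)
    (H2 : ∀ X : Finset V, ∑ v ∈ X, w v ≤ G.d X)
    (hw : ∀ X : Finset V, ∑ v ∈ X, w v ≤ m)
    (H3 : ∀ U : Set V, (G.cut U).Finite → U.Finite ∨ Uᶜ.Finite) (x y : V) :
    ∃ T : Set E, (∀ X : Finset V, X.Nonempty → (T ∩ G.cut X).Nonempty) ∧
      (∀ X : Finset V, X.Nonempty → (Tᶜ ∩ G.cut X).Nonempty) ∧ G.Conn T x y := by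
  obtain ⟨o, hv, hc⟩ := G.exists_valid_finite_cut H1 H2 hw x
  set D := G.orient o with hD
  have hx := (H3 _ hc).resolve_left (reach_infinite hv.outW x)
  obtain ⟨z, hzy, hzx⟩ := (reach_infinite hv.outW y).exists_notMem_finite hx
  simp only [Set.mem_compl_iff, not_not, Set.mem_ofPred_eq] at hzx hzy
  obtain ⟨F1, h1, h2⟩ := exists_split hv
  set R0 := {u | D.Reach F1 z u} with hR0
  set F0 := {e | e ∈ F1 ∧ D.s e ∈ R0} with hF0
  obtain ⟨F, h3, h4, h5, h6⟩ := exists_greedy hv R0 F0 (fun e he => he.2) (fun X hX => by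
    obtain ⟨e, he⟩ := h2 X hX
    exact ⟨e, fun h => he.1 h.1, he.2⟩)
  set R := {v | ∃ r ∈ R0, D.Reach F v r} with hR
  have hcut : ∀ (X : Finset V) e, D.s e ∈ X → D.t e ∉ X → e ∈ G.cut X := by
    intro X e hs ht
    rw [← G.cut_orient o]
    exact fun h => ht (h.mp hs)
  have hz : ∀ r ∈ R0, D.Reach F z r := by
    intro r hr
    induction hr with
    | refl => exact Relation.ReflTransGen.refl
    | tail hb hbc ih =>
      obtain ⟨e, he, rfl, rfl⟩ := hbc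
      exact ih.tail ⟨e, h3 ⟨he, hb⟩, rfl, rfl⟩
  have hin : ∀ p, D.Reach Set.univ p z → G.Conn F p z := by
    intro p hp
    have hpR : p ∈ R := by
      by_contra hcon
      obtain ⟨e, -, h7, h8, -⟩ := hp.exists_out (X := Rᶜ) hcon
        (fun h => h ⟨z, Relation.ReflTransGen.refl, Relation.ReflTransGen.refl⟩)
      exact h7 (h6 e (not_not.mp h8))
    obtain ⟨r, hr, h⟩ := hpR
    exact h.conn.trans (hz r hr).conn.symm
  have hout : ∀ (N : Set E) (X : Finset V), D.OutW N → (∃ v ∈ X, v ∉ R) →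
      ∃ e ∈ N, D.s e ∉ R ∧ e ∈ G.cut X := by
    rintro N X hN ⟨v, hv, hvR⟩
    obtain ⟨e, h7, h8, h9⟩ := hN (X.filter fun v => v ∉ R) ⟨v, Finset.mem_filter.mpr ⟨hv, hvR⟩⟩
    obtain ⟨h10, h11⟩ := Finset.mem_filter.mp h8
    exact ⟨e, h7, h11, hcut X e h10 fun h => h9 (Finset.mem_filter.mpr ⟨h, fun h' => h11 (h6 e h')⟩)⟩
  refine ⟨F ∪ {e | e ∈ F1 ∧ D.s e ∉ R}, fun X hX => ?_, fun X hX => ?_,
    ((hin x hzx).trans (hin y hzy).symm).mono Set.subset_union_left⟩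
  · by_cases hXR : ∃ v ∈ X, v ∉ R
    · obtain ⟨e, h7, h8, h9⟩ := hout F1 X h1 hXR
      exact ⟨e, Or.inr ⟨h7, h8⟩, h9⟩
    · push Not at hXR
      by_cases hX0 : ∃ v ∈ X, v ∈ R0
      · obtain ⟨v, hv, hv0⟩ := hX0
        obtain ⟨e, h7, h8, h9⟩ := h1 (X.filter fun v => v ∈ R0)
          ⟨v, Finset.mem_filter.mpr ⟨hv, hv0⟩⟩
        obtain ⟨h10, h11⟩ := Finset.mem_filter.mp h8
        exact ⟨e, Or.inl (h3 ⟨h7, h11⟩), hcut X e h10 fun h => h9 (Finset.mem_filter.mpr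
          ⟨h, Relation.ReflTransGen.tail h11 ⟨e, h7, rfl, rfl⟩⟩)⟩
      · push Not at hX0
        obtain ⟨v, hv⟩ := hX
        obtain ⟨r, hr, h⟩ := hXR v hv
        obtain ⟨e, h7, h8, h9, -⟩ := h.exists_out (X := (X : Set V)) hv (fun h => hX0 r h hr)
        exact ⟨e, Or.inl h7, hcut X e h8 h9⟩
  · by_cases hXR : ∃ v ∈ X, v ∉ R
    · obtain ⟨e, h7, h8, h9⟩ := hout F1ᶜ X h2 hXR
      exact ⟨e, fun h => h.elim (fun h => h8 (h4 e h)) (fun h => h7 h.1), h9⟩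
    · push Not at hXR
      obtain ⟨e, h7, h8, h9⟩ := h5 X hX
      exact ⟨e, fun h => h.elim h7 (fun h => h.2 (hXR _ h8)), hcut X e h8 h9⟩

end MG

end Pool.Agent.MP_7f38c2_co.H10
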