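import Pool.Agent.MP_7f38c2_co.H10.Orient

/-! Re-orienting so that the set reachable from a given vertex has a finite cut. -/

namespace Pool.Agent.MP_7f38c2_co.H10

open Classical

lemma exists_filter_of_directed {ι : Type*} [Nonempty ι] (r : ι → ι → Prop) (hr : ∀ a, r a a)
    (ht : ∀ a b c, r a b → r b c → r a c) (hd : ∀ a b, ∃ c, r a c ∧ r b c) :
    ∃ 𝓕 : Filter ι, 𝓕.NeBot ∧ ∀ a, ∀ᶠ b in 𝓕, r a b := by
  let _ : Preorder ι := { le := r, le_refl := hr, le_trans := ht }
  have : IsDirectedOrder ι := ⟨hd⟩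
  exact ⟨Filter.atTop, inferInstance, fun a => Filter.eventually_ge_atTop a⟩

namespace MG

variable {V E : Type*}

lemma orient_s_congr (G : MG V E) {o o' : E → Bool} {e : E} (h : o' e = o e) :
    (G.orient o').s e = (G.orient o).s e := by simp [orient, h]

lemma orient_t_congr (G : MG V E) {o o' : E → Bool} {e : E} (h : o' e = o e) :
    (G.orient o').t e = (G.orient o).t e := by simp [orient, h]

lemma orient_s_of_ne (G : MG V E) {o o' : E → Bool} {e : E} (h : o' e ≠ o e) :
    (G.orient o').s e = (G.orient o).t e := by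
  simp only [orient]
  cases h1 : o e <;> cases h2 : o' e <;> simp_all

/-- `o'` agrees with `o` on all arcs reachable from `x` -/
def Ext (G : MG V E) (x : V) (o o' : E → Bool) : Prop :=
  ∀ e, (G.orient o).Reach Set.univ x ((G.orient o).s e) → o' e = o e

lemma Ext.reach {G : MG V E} {x : V} {o o' : E → Bool} (h : G.Ext x o o') {u : V}
    (hu : (G.orient o).Reach Set.univ x u) : (G.orient o').Reach Set.univ x u := by
  induction hu with
  | refl => exact Relation.ReflTransGen.refl
  | tail hb hbc ih =>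
    obtain ⟨e, -, rfl, rfl⟩ := hbc
    have := h e hb
    exact ih.tail ⟨e, trivial, G.orient_s_congr this, G.orient_t_congr this⟩

lemma Ext.trans {G : MG V E} {x : V} {o o' o'' : E → Bool} (h : G.Ext x o o')
    (h' : G.Ext x o' o'') : G.Ext x o o'' := by
  intro e he
  have h1 := h e he
  rw [← h1]
  apply h'
  rw [G.orient_s_congr h1]
  exact h.reach he

lemma exists_maximal_valid (G : MG V E) (x : V) (hne : ∃ o, (G.orient o).Valid 0 Set.univ) :
    ∃ o, (G.orient o).Valid 0 Set.univ ∧
      ∀ o', (G.orient o').Valid 0 Set.univ → G.Ext x o o' → G.Ext x o' o := by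
  let α := {o : E → Bool // (G.orient o).Valid 0 Set.univ}
  have : Nonempty α := ⟨⟨_, hne.choose_spec⟩⟩
  suffices H : ∀ c : Set α, IsChain (fun a b : α => G.Ext x a.1 b.1) c → c.Nonempty →
      ∃ ub : α, ∀ a ∈ c, G.Ext x a.1 ub.1 by
    obtain ⟨m, hm⟩ := exists_maximal_of_nonempty_chains_bounded
      (r := fun a b : α => G.Ext x a.1 b.1) H (fun h h' => h.trans h')
    exact ⟨m.1, m.2, fun o' ho' h => hm ⟨o', ho'⟩ h⟩
  intro c hc hcne
  have : Nonempty c := hcne.to_subtype
  obtain ⟨𝓕, h𝓕, hev⟩ := exists_filter_of_directed (fun a b : c => G.Ext x a.1.1 b.1.1)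
    (fun a e _ => rfl) (fun a b c h h' => h.trans h') (fun a b => by
      by_cases hab : a.1 = b.1
      · exact ⟨a, fun e _ => rfl, fun e _ => by rw [hab]⟩
      · rcases hc a.2 b.2 hab with h | h
        · exact ⟨b, h, fun e _ => rfl⟩
        · exact ⟨a, fun e _ => rfl, h⟩)
  obtain ⟨o', ho'⟩ := exists_limit 𝓕 (fun a => a.1.1)
  refine ⟨⟨o', fun X hX _ => ?_⟩, fun a ha e he => ?_⟩
  · obtain ⟨a, -, h⟩ := ho' _ (G.inc_finite X.finite_toSet) (fun _ => True)
      (Filter.Eventually.of_forall fun _ => trivial)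
    rw [← G.dout_congr X h]
    exact a.1.2 X hX (Set.subset_univ _)
  · obtain ⟨b, hb, h⟩ := ho' {e} (Set.finite_singleton e) _ (hev ⟨a, ha⟩)
    show o' e = a.1 e
    rw [← h e rfl]
    exact hb e he

theorem exists_valid_finite_cut (G : MG V E) {w : V → ℕ} {m : ℕ}
    (H1 : ∀ X : Finset V, X.Nonempty → 4 ≤ G.d X + ∑ v ∈ X, w v)
    (H2 : ∀ X : Finset V, ∑ v ∈ X, w v ≤ G.d X)
    (hw : ∀ X : Finset V, ∑ v ∈ X, w v ≤ m) (x : V) :
    ∃ o, (G.orient o).Valid 0 Set.univ ∧
      (G.cut {u | (G.orient o).Reach Set.univ x u}).Finite := by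
  obtain ⟨o, hv, hmax⟩ := G.exists_maximal_valid x (G.exists_valid H1 H2)
  refine ⟨o, hv, ?_⟩
  set D := G.orient o with hD
  set U := {u | D.Reach Set.univ x u} with hU
  have hcut : ∀ a ∈ G.cut U, D.s a ∉ U ∧ D.t a ∈ U := by
    intro a ha
    rw [← G.cut_orient o] at ha
    have h1 : D.s a ∈ U → D.t a ∈ U := fun h => Relation.ReflTransGen.tail h ⟨a, trivial, rfl, rfl⟩
    simp only [cut, Set.mem_ofPred_eq] at ha
    tauto
  have hbad : ∀ a ∈ G.cut U, ∀ o', (G.orient o').Valid 0 Set.univ → G.Ext x o o' → o' a = o a := by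
    intro a ha o' hv' he
    by_contra hne
    refine hne (hmax o' hv' he a ?_).symm
    rw [G.orient_s_of_ne hne]
    exact he.reach (hcut a ha).2
  have hrev : ∀ a ∈ G.cut U, ∀ p, D.Reach Set.univ p (D.s a) →
      ∃ o' : E → Bool, (∀ X : Finset V, (G.orient o').dout X + (if p ∈ X then 1 else 0)
        = D.dout X + (if D.t a ∈ X then 1 else 0)) ∧ G.Ext x o o' ∧ o' a ≠ o a := by
    intro a ha p hp
    obtain ⟨o1, h1, h2⟩ := G.exists_reverse o hp
    have h3 : o1 a = o a := by
      by_contra hne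
      exact (hcut a ha).1 (Relation.ReflTransGen.trans (hcut a ha).2 (h2 a hne))
    refine ⟨Function.update o1 a (!o1 a), fun X => ?_, fun e he => ?_, ?_⟩
    · have h4 := G.dout_flip o1 a X
      have h5 := h1 X
      rw [G.orient_s_congr h3, G.orient_t_congr h3] at h4
      simp only [← hD] at h4 h5
      omega
    · have hea : e ≠ a := by
        rintro rfl
        exact (hcut e ha).1 he
      rw [Function.update_of_ne hea]
      by_contra hne
      exact (hcut a ha).1 (Relation.ReflTransGen.trans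
        (Relation.ReflTransGen.tail he ⟨e, trivial, rfl, rfl⟩) (h2 e hne))
    · rw [Function.update_self, h3]
      cases o a <;> simp
  have hfin : ∀ a ∈ G.cut U, {p | D.Reach Set.univ p (D.s a)}.Finite := by
    intro a ha
    by_contra hinf
    have : Infinite {p | D.Reach Set.univ p (D.s a)} := Set.Infinite.to_subtype hinf
    choose oo hoo using fun p : {p | D.Reach Set.univ p (D.s a)} => hrev a ha p.1 p.2
    obtain ⟨o', ho'⟩ := exists_limit Filter.cofinite oo
    have hT : ∀ᶠ _ : {p | D.Reach Set.univ p (D.s a)} in Filter.cofinite, True :=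
      Filter.Eventually.of_forall fun _ => trivial
    have h1 := hbad a ha o' (fun X hX _ => ?_) (fun e he => ?_)
    · obtain ⟨p, -, h⟩ := ho' {a} (Set.finite_singleton a) _ hT
      exact (hoo p).2.2 ((h a rfl).trans h1)
    · obtain ⟨p, hp, h⟩ := ho' _ (G.inc_finite X.finite_toSet) (fun p => p.1 ∉ X) (by
        rw [Filter.eventually_cofinite]
        simp only [not_not]
        exact X.finite_toSet.preimage Subtype.val_injective.injOn)
      rw [← G.dout_congr X h]
      have h2 := (hoo p).1 X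
      have h3 := hv X hX (Set.subset_univ _)
      rw [if_neg hp] at h2
      omega
    · obtain ⟨p, -, h⟩ := ho' {e} (Set.finite_singleton e) _ hT
      rw [← h e rfl]
      exact (hoo p).2.1 e he
  by_contra hinf
  obtain ⟨A, hA, hAc⟩ := Set.Infinite.exists_subset_card_eq hinf (m + 1)
  have hZf : (⋃ a ∈ (A : Set E), {p | D.Reach Set.univ p (D.s a)}).Finite :=
    A.finite_toSet.biUnion fun a ha => hfin a (hA ha)
  set Z := hZf.toFinset with hZ
  have hmem : ∀ p, p ∈ Z ↔ ∃ a ∈ A, D.Reach Set.univ p (D.s a) := by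
    intro p
    simp [hZ]
  have hin : ∀ e, D.t e ∈ Z → D.s e ∈ Z := by
    intro e he
    rw [hmem] at he ⊢
    obtain ⟨a, ha, h⟩ := he
    exact ⟨a, ha, Reach.step (Set.mem_univ e) h⟩
  have hc := count (w := w) hv (fun X hX => by rw [d_orient]; exact H1 X hX) Z
    (Set.subset_univ _) (by
      intro p hp
      obtain ⟨a, ha, hpa⟩ := (hmem p).mp hp
      obtain ⟨o', h1, h2, h3⟩ := hrev a (hA ha) p hpa
      have h4 : ¬ (G.orient o').Valid 0 Set.univ := fun h => h3 (hbad a (hA ha) o' h h2)
      simp only [Valid, not_forall, not_le] at h4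
      obtain ⟨X, hX, -, h5⟩ := h4
      have h6 := h1 X
      have h7 := hv X hX (Set.subset_univ _)
      simp only [Pi.zero_apply, Finset.sum_const_zero, add_zero] at h5 h7 ⊢
      have hpX : p ∈ X := by
        by_contra h
        rw [if_neg h] at h6
        omega
      have htX : D.t a ∉ X := by
        intro h
        rw [if_pos h, if_pos hpX] at h6
        omega
      rw [if_pos hpX, if_neg htX] at h6
      have h8 : D.dout X ≤ 2 := by omega
      refine ⟨X, hpX, tight_subset (Z := (Z : Set V)) hv hin (Set.subset_univ _) (by simpa using h8)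
        (Or.inl ?_), h8⟩
      by_cases hsX : D.s a ∈ X
      · exact ⟨a, hsX, (hmem _).mpr ⟨a, ha, Relation.ReflTransGen.refl⟩, htX⟩
      · obtain ⟨e, -, h9, h10, h11⟩ := hpa.exists_out (X := (X : Set V)) hpX hsX
        exact ⟨e, h9, (hmem _).mpr ⟨a, ha, Reach.step (Set.mem_univ e) h11⟩, h10⟩)
  have h1 : m + 1 ≤ D.dout Z := by
    rw [← hAc, ← Set.ncard_coe_finset]
    refine Set.ncard_le_ncard (fun a ha => ⟨trivial, (hmem _).mpr ⟨a, ha, Relation.ReflTransGen.refl⟩,
      fun h => ?_⟩) (D.outS_finite _ _)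
    obtain ⟨a', ha', h'⟩ := (hmem _).mp h
    exact (hcut a' (hA ha')).1 (Relation.ReflTransGen.trans (hcut a (hA ha)).2 h')
  have h2 := hw Z
  rw [din_eq_zero hin] at hc
  simp only [Pi.zero_apply, Nat.cast_zero, Finset.sum_const_zero] at hc
  omega

end MG

end Pool.Agent.MP_7f38c2_co.H10
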