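import Pool.Agent.MP_7f38c2_co.H10.Basic

/-! Orientations in which every finite set has out-degree at least two. -/

namespace Pool.Agent.MP_7f38c2_co.H10

open Classical

namespace MG

variable {V E : Type*}

def Valid (D : MG V E) (k : V → ℕ) (Y : Set V) : Prop :=
  ∀ X : Finset V, X.Nonempty → ↑X ⊆ Y → 2 ≤ D.dout X + ∑ v ∈ X, k v

lemma tight_union {D : MG V E} {k : V → ℕ} {Y : Set V} (hD : D.Valid k Y) {X X' : Finset V}
    (hX : ↑X ⊆ Y) (h : D.dout X + ∑ v ∈ X, k v ≤ 2)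
    (h' : D.dout X' + ∑ v ∈ X', k v ≤ 2) (hne : (X ∩ X').Nonempty) :
    D.dout (X ∪ X') + ∑ v ∈ X ∪ X', k v ≤ 2 := by
  have h1 := D.dF_submod Set.univ X X'
  have h2 := Finset.sum_union_inter (s₁ := X) (s₂ := X') (f := k)
  have h3 := hD (X ∩ X') hne (by
    intro v hv
    exact hX (Finset.mem_inter.mp hv).1)
  unfold dout at *
  omega

/-- the counting lemma -/
lemma count {D : MG V E} {k w : V → ℕ} {Y : Set V} (hD : D.Valid k Y)
    (H1 : ∀ X : Finset V, X.Nonempty → 4 ≤ D.d X + ∑ v ∈ X, w v) (Z : Finset V) (hZ : ↑Z ⊆ Y)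
    (hcov : ∀ p ∈ Z, ∃ X : Finset V, p ∈ X ∧ X ⊆ Z ∧ D.dout X + ∑ v ∈ X, k v ≤ 2) :
    2 * (∑ v ∈ Z, k v : ℤ) + (D.dout Z - D.din Z) ≤ ∑ v ∈ Z, w v := by
  induction Z using Finset.strongInduction with
  | H Z ih =>
  rcases Z.eq_empty_or_nonempty with rfl | ⟨p, hp⟩
  · simp [dout_sub_din]
  obtain ⟨X, hX, hmax⟩ := Finset.exists_max_image
    (Z.powerset.filter fun X => X.Nonempty ∧ D.dout X + ∑ v ∈ X, k v ≤ 2) Finset.card (by
      obtain ⟨X, h1, h2, h3⟩ := hcov p hp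
      exact ⟨X, by simp only [Finset.mem_filter, Finset.mem_powerset]; exact ⟨h2, ⟨p, h1⟩, h3⟩⟩)
  simp only [Finset.mem_filter, Finset.mem_powerset] at hX hmax
  obtain ⟨hXZ, hXne, hXt⟩ := hX
  have hXY : (↑X : Set V) ⊆ Y := fun v hv => hZ (hXZ hv)
  have h1 := ih (Z \ X) (Finset.sdiff_ssubset hXZ hXne)
    (fun v hv => hZ (Finset.mem_sdiff.mp hv).1) (by
      intro q hq
      obtain ⟨hqZ, hqX⟩ := Finset.mem_sdiff.mp hq
      obtain ⟨X', h1, h2, h3⟩ := hcov q hqZ
      refine ⟨X', h1, fun v hv => Finset.mem_sdiff.mpr ⟨h2 hv, fun hvX => ?_⟩, h3⟩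
      have h4 := tight_union hD hXY hXt h3
        ⟨v, Finset.mem_inter.mpr ⟨hvX, hv⟩⟩
      have h5 := hmax (X ∪ X') ⟨Finset.union_subset hXZ h2, hXne.mono Finset.subset_union_left, h4⟩
      have h6 : X.card < (X ∪ X').card := Finset.card_lt_card
        ⟨Finset.subset_union_left, fun h => hqX (h (Finset.mem_union_right _ h1))⟩
      omega)
  have h2 := H1 X hXne
  have h3 := hD X hXne hXY
  have h4 := D.dout_sub_din X
  rw [dout_sub_din] at h1 ⊢
  rw [← Finset.sum_sdiff hXZ, ← Finset.sum_sdiff hXZ (f := fun v => _ - _),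
    ← Finset.sum_sdiff hXZ (f := w)]
  unfold d at h2
  push_cast at h1 ⊢
  have h5 : ((∑ v ∈ X, k v : ℕ) : ℤ) = ∑ v ∈ X, (k v : ℤ) := by push_cast; rfl
  have h6 : ((∑ v ∈ X, w v : ℕ) : ℤ) = ∑ v ∈ X, (w v : ℤ) := by push_cast; rfl
  omega

/-- a tight set that is left by a path inside an in-closed set lies inside that set -/
lemma tight_subset {D : MG V E} {k : V → ℕ} {Y : Set V} (hD : D.Valid k Y) {Z : Set V}
    (hZ : ∀ e, D.t e ∈ Z → D.s e ∈ Z) {X : Finset V} (hXY : ↑X ⊆ Y)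
    (hX : D.dout X + ∑ v ∈ X, k v ≤ 2)
    (h : (∃ e, D.s e ∈ X ∧ D.s e ∈ Z ∧ D.t e ∉ X) ∨ ∃ q ∈ X, q ∈ Z ∧ 0 < k q) :
    ∀ v ∈ X, v ∈ Z := by
  by_contra hcon
  push Not at hcon
  obtain ⟨v, hvX, hvZ⟩ := hcon
  set X' := X.filter (fun v => v ∉ Z) with hX'
  have h1 := hD X' ⟨v, Finset.mem_filter.mpr ⟨hvX, hvZ⟩⟩
    (fun u hu => hXY (Finset.mem_filter.mp hu).1)
  have hsub : D.outS Set.univ X' ⊆ D.outS Set.univ X := by
    rintro e ⟨-, h2, h3⟩
    obtain ⟨h4, h5⟩ := Finset.mem_filter.mp h2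
    exact ⟨trivial, h4, fun h6 => h3 (Finset.mem_filter.mpr ⟨h6, fun h7 => h5 (hZ e h7)⟩)⟩
  have h2 : D.dout X' ≤ D.dout X := Set.ncard_le_ncard hsub (D.outS_finite _ _)
  have h3 : ∑ v ∈ X', k v ≤ ∑ v ∈ X, k v :=
    Finset.sum_le_sum_of_subset (Finset.filter_subset _ _)
  rcases h with ⟨e, h4, h5, h6⟩ | ⟨q, h4, h5, h6⟩
  · have h7 : D.dout X' < D.dout X := by
      refine Set.ncard_lt_ncard ⟨hsub, fun h => ?_⟩ (D.outS_finite _ _)
      have := (h (show e ∈ D.outS Set.univ X from ⟨trivial, h4, h6⟩)).2.1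
      exact (Finset.mem_filter.mp this).2 h5
    omega
  · have h7 : ∑ v ∈ X', k v < ∑ v ∈ X, k v :=
      Finset.sum_lt_sum_of_subset (Finset.filter_subset _ _) h4
        (fun h => (Finset.mem_filter.mp h).2 h5) h6 (fun _ _ _ => Nat.zero_le _)
    omega

lemma din_eq_zero {D : MG V E} {Z : Finset V} (hZ : ∀ e, D.t e ∈ Z → D.s e ∈ Z) : D.din Z = 0 := by
  unfold din
  rw [Set.ncard_eq_zero (D.inS_finite Z)]
  ext e
  simp only [inS, Set.mem_ofPred_eq, Set.mem_empty_iff_false, iff_false, not_and, not_not]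
  exact hZ e

lemma exists_valid_finite (G : MG V E) {w : V → ℕ}
    (H1 : ∀ X : Finset V, X.Nonempty → 4 ≤ G.d X + ∑ v ∈ X, w v)
    (H2 : ∀ X : Finset V, ∑ v ∈ X, w v ≤ G.d X) (Y : Finset V) :
    ∃ o, (G.orient o).Valid 0 Y := by
  suffices H : ∀ n, ∀ (o : E → Bool) (k : V → ℕ), ∑ v ∈ Y, k v = n → (G.orient o).Valid k Y →
      ∃ o, (G.orient o).Valid 0 Y by
    refine H _ (fun _ => true) (fun _ => 2) rfl fun X hX _ => ?_
    have := hX.card_pos
    simp only [Finset.sum_const, smul_eq_mul]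
    omega
  intro n
  induction n with
  | zero =>
    intro o k hk hv
    refine ⟨o, fun X hX hXY => ?_⟩
    have h1 := hv X hX hXY
    have h2 : ∑ v ∈ X, k v ≤ ∑ v ∈ Y, k v := Finset.sum_le_sum_of_subset (fun v hv => hXY hv)
    simp only [Pi.zero_apply, Finset.sum_const_zero]
    omega
  | succ n ih =>
    intro o k hk hv
    obtain ⟨u, huY, hu⟩ : ∃ u ∈ Y, 0 < k u := by
      by_contra hcon
      push Not at hcon
      rw [Finset.sum_eq_zero (fun v hv => Nat.le_zero.mp (hcon v hv))] at hk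
      omega
    set k' := Function.update k u (k u - 1) with hk'
    have hsum : ∀ X : Finset V, ∑ v ∈ X, k' v + (if u ∈ X then 1 else 0) = ∑ v ∈ X, k v := by
      intro X
      split_ifs with h
      · rw [hk', Finset.sum_update_of_mem h, ← Finset.add_sum_erase X k h, Finset.sdiff_singleton_eq_erase]
        omega
      · rw [hk', Finset.sum_update_of_notMem h, add_zero]
    by_contra hno
    have hstuck : ∀ p, (G.orient o).Reach Set.univ p u →
        ∃ X : Finset V, p ∈ X ∧ ↑X ⊆ (Y : Set V) ∧ (G.orient o).dout X + ∑ v ∈ X, k v ≤ 2 := by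
      intro p hp
      obtain ⟨o', h1, -⟩ := G.exists_reverse o hp
      by_contra hcon
      push Not at hcon
      refine hno (ih o' k' ?_ fun X hX hXY => ?_)
      · have := hsum Y
        rw [if_pos huY] at this
        omega
      · have h2 := h1 X
        have h3 := hsum X
        have h4 := hv X hX hXY
        by_cases hpX : p ∈ X
        · have h5 := hcon X hpX hXY
          rw [if_pos hpX] at h2
          omega
        · rw [if_neg hpX] at h2
          omega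
    set Z := Y.filter (fun p => (G.orient o).Reach Set.univ p u) with hZ
    have hmem : ∀ p, p ∈ Z ↔ (G.orient o).Reach Set.univ p u := by
      intro p
      rw [hZ, Finset.mem_filter]
      refine ⟨fun h => h.2, fun h => ⟨?_, h⟩⟩
      obtain ⟨X, h1, h2, -⟩ := hstuck p h
      exact h2 h1
    have hin : ∀ e, (G.orient o).t e ∈ Z → (G.orient o).s e ∈ Z := by
      intro e he
      rw [hmem] at he ⊢
      exact Reach.step (Set.mem_univ e) he
    have huZ : u ∈ Z := (hmem u).mpr Relation.ReflTransGen.refl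
    have hc := count (w := w) hv (fun X hX => by rw [d_orient]; exact H1 X hX) Z
      (fun v hv => (Finset.mem_filter.mp hv).1) (by
        intro p hp
        obtain ⟨X, h1, h2, h3⟩ := hstuck p ((hmem p).mp hp)
        refine ⟨X, h1, tight_subset (Z := (Z : Set V)) hv hin h2 h3 ?_, h3⟩
        by_cases huX : u ∈ X
        · exact Or.inr ⟨u, huX, huZ, hu⟩
        · obtain ⟨e, -, h4, h5, h6⟩ := ((hmem p).mp hp).exists_out (X := (X : Set V)) h1 huX
          exact Or.inl ⟨e, h4, (hmem _).mpr (Reach.step (Set.mem_univ e) h6), h5⟩)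
    have h2 := H2 Z
    rw [← G.d_orient o, d, din_eq_zero hin] at h2
    rw [din_eq_zero hin] at hc
    have h3 : k u ≤ ∑ v ∈ Z, k v := Finset.single_le_sum (fun _ _ => Nat.zero_le _) huZ
    have h5 : ((∑ v ∈ Z, k v : ℕ) : ℤ) = ∑ v ∈ Z, (k v : ℤ) := by push_cast; rfl
    omega

lemma dout_congr (G : MG V E) {o o' : E → Bool} (X : Finset V)
    (h : ∀ e, (G.s e ∈ X ∨ G.t e ∈ X) → o e = o' e) :
    (G.orient o).dout X = (G.orient o').dout X := by
  unfold dout dF
  congr 1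
  ext e
  by_cases he : G.s e ∈ X ∨ G.t e ∈ X
  · simp only [outS, orient, h e he, Set.mem_ofPred_eq]
  · push Not at he
    simp only [outS, orient, Set.mem_ofPred_eq]
    split_ifs <;> simp [he.1, he.2]

lemma exists_valid (G : MG V E) {w : V → ℕ}
    (H1 : ∀ X : Finset V, X.Nonempty → 4 ≤ G.d X + ∑ v ∈ X, w v)
    (H2 : ∀ X : Finset V, ∑ v ∈ X, w v ≤ G.d X) :
    ∃ o, (G.orient o).Valid 0 Set.univ := by
  choose o ho using G.exists_valid_finite H1 H2
  obtain ⟨o', ho'⟩ := exists_limit (Filter.atTop : Filter (Finset V)) o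
  refine ⟨o', fun X hX _ => ?_⟩
  obtain ⟨Y, hY, h⟩ := ho' _ (G.inc_finite X.finite_toSet) (fun Y => X ≤ Y)
    (Filter.eventually_ge_atTop X)
  rw [← G.dout_congr X h]
  exact ho Y X hX hY

end MG

end Pool.Agent.MP_7f38c2_co.H10
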