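import Pool.Agent.MP_7f38c2_co.H10.Spine

/-! Degree parities. -/

namespace Pool.Agent.MP_7f38c2_co.H10

open Classical

noncomputable def dl {V : Type*} (a v : V) : ZMod 2 := if a = v then 1 else 0

noncomputable def ind {E : Type*} (N : Set E) (e : E) : ZMod 2 := if e ∈ N then 1 else 0

lemma z2_add_self (x : ZMod 2) : x + x = 0 := CharTwo.add_self_eq_zero x

lemma ind_support {E : Type*} (j : E → ZMod 2) : ind {e | j e ≠ 0} = j := by
  funext e
  simp only [ind, Set.mem_ofPred_eq]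
  split_ifs with h
  · revert h
    generalize j e = x
    decide +revert
  · exact (not_not.mp h).symm

lemma ind_sdiff {E : Type*} {N N' : Set E} (h : N' ⊆ N) : ind (N \ N') = ind N + ind N' := by
  funext e
  have := @h e
  by_cases h1 : e ∈ N <;> by_cases h2 : e ∈ N' <;> simp_all [ind, z2_add_self]

lemma ind_union {E : Type*} {N N' : Set E} (h : Disjoint N N') :
    ind (N ∪ N') = ind N + ind N' := by
  funext e
  have := @Set.disjoint_left.mp h e
  by_cases h1 : e ∈ N <;> by_cases h2 : e ∈ N' <;> simp_all [ind]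

lemma sum_mul_dl {V : Type*} (A : Finset V) (b : V → ZMod 2) (u : V) :
    ∑ v ∈ A, b v * dl v u = if u ∈ A then b u else 0 := by
  simp [dl]

namespace MG

variable {V E : Type*}

noncomputable def mu (G : MG V E) (e : E) (v : V) : ZMod 2 := dl (G.s e) v + dl (G.t e) v

noncomputable def bd (G : MG V E) (j : E → ZMod 2) (v : V) : ZMod 2 :=
  ∑ e ∈ (G.lf v).toFinset, j e * G.mu e v

lemma Joins.mu {G : MG V E} {e : E} {a b : V} (h : G.Joins e a b) (v : V) :
    G.mu e v = dl a v + dl b v := by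
  rcases h with ⟨rfl, rfl⟩ | ⟨rfl, rfl⟩
  · rfl
  · exact add_comm _ _

lemma bd_add (G : MG V E) (j j' : E → ZMod 2) (v : V) :
    G.bd (j + j') v = G.bd j v + G.bd j' v := by
  simp [bd, add_mul, Finset.sum_add_distrib]

lemma bd_smul (G : MG V E) (c : ZMod 2) (j : E → ZMod 2) (v : V) :
    G.bd (c • j) v = c * G.bd j v := by
  simp [bd, mul_assoc, Finset.mul_sum]

lemma bd_zero (G : MG V E) (v : V) : G.bd 0 v = 0 := by simp [bd]

lemma bd_congr (G : MG V E) {j j' : E → ZMod 2} {v : V}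
    (h : ∀ e, G.s e = v ∨ G.t e = v → j e = j' e) : G.bd j v = G.bd j' v :=
  Finset.sum_congr rfl fun e he => by rw [h e ((G.lf v).mem_toFinset.mp he)]

lemma bd_eq_sum (G : MG V E) {j : E → ZMod 2} {F : Finset E} (hF : ∀ e, j e ≠ 0 → e ∈ F) (v : V) :
    G.bd j v = ∑ e ∈ F, j e * G.mu e v := by
  unfold bd
  refine Finset.sum_congr_of_eq_on_inter ?_ ?_ (fun _ _ _ => rfl)
  · intro e _ he
    rw [not_not.mp (mt (hF e) he), zero_mul]
  · intro e _ he
    simp only [Set.Finite.mem_toFinset, Set.mem_ofPred_eq, not_or] at he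
    simp [mu, dl, he.1, he.2]

lemma bd_single (G : MG V E) (e : E) (v : V) : G.bd (ind {e}) v = G.mu e v := by
  rw [G.bd_eq_sum (F := {e}) (by simp [ind])]
  simp [ind]

lemma exists_of_bd_ne {G : MG V E} {N : Set E} {v : V} (h : G.bd (ind N) v ≠ 0) :
    ∃ e ∈ N, ∃ u, G.Joins e v u := by
  obtain ⟨e, he, h1⟩ := Finset.exists_ne_zero_of_sum_ne_zero h
  refine ⟨e, ?_, ?_⟩
  · by_contra h2
    simp [ind, h2] at h1
  · rcases (G.lf v).mem_toFinset.mp he with h2 | h2
    · exact ⟨_, Or.inl ⟨h2, rfl⟩⟩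
    · exact ⟨_, Or.inr ⟨rfl, h2⟩⟩

lemma handshake (G : MG V E) {N : Set E} (hN : N.Finite) {A : Finset V} (hA : N ⊆ G.In A) :
    ∑ v ∈ A, G.bd (ind N) v = 0 := by
  have h : ∀ v, G.bd (ind N) v = ∑ e ∈ hN.toFinset, ind N e * G.mu e v :=
    G.bd_eq_sum (by simp [ind])
  simp only [h]
  rw [Finset.sum_comm]
  refine Finset.sum_eq_zero fun e he => ?_
  have h1 := hA (hN.mem_toFinset.mp he)
  rw [← Finset.mul_sum]
  simp only [mu, dl, Finset.sum_add_distrib, Finset.sum_ite_eq, Finset.mem_coe.mp h1.1,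
    Finset.mem_coe.mp h1.2, if_true, z2_add_self, mul_zero]

lemma Conn.chain {G : MG V E} {N : Set E} {a b : V} (h : G.Conn N a b) :
    ∃ j : E → ZMod 2, {e | j e ≠ 0} ⊆ N ∧ {e | j e ≠ 0}.Finite ∧
      ∀ v, G.bd j v = dl a v + dl b v := by
  induction h with
  | refl => exact ⟨0, by simp, by simp, fun v => by rw [bd_zero, z2_add_self]⟩
  | @tail b c _ hbc ih =>
    obtain ⟨e, he, h⟩ := hbc
    obtain ⟨j, h1, h2, h3⟩ := ih
    have h5 : {f | (j + ind {e}) f ≠ 0} ⊆ insert e {f | j f ≠ 0} := by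
      intro f hf
      by_contra h6
      simp only [Set.mem_insert_iff, Set.mem_ofPred_eq, not_or, not_not] at h6
      simp [ind, h6.1, h6.2] at hf
    refine ⟨j + ind {e}, h5.trans (Set.insert_subset he h1), (h2.insert e).subset h5, fun v => ?_⟩
    rw [bd_add, bd_single, h3, h.mu]
    linear_combination z2_add_self (dl b v)

lemma chain_sum {G : MG V E} {N : Set E} (A : Finset V) (b : V → ZMod 2) (z : V → V)
    (h : ∀ v ∈ A, G.Conn N v (z v)) : ∃ j : E → ZMod 2, {e | j e ≠ 0} ⊆ N ∧ {e | j e ≠ 0}.Finite ∧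
      ∀ u, G.bd j u = ∑ v ∈ A, b v * dl v u + ∑ v ∈ A, b v * dl (z v) u := by
  induction A using Finset.induction_on with
  | empty => exact ⟨0, by simp, by simp, fun v => by simp [bd_zero]⟩
  | insert a A ha ih =>
    obtain ⟨j, h1, h2, h3⟩ := ih fun v hv => h v (Finset.mem_insert_of_mem hv)
    obtain ⟨j', h4, h5, h6⟩ := (h a (Finset.mem_insert_self _ _)).chain
    have h7 : {f | (j + b a • j') f ≠ 0} ⊆ {f | j f ≠ 0} ∪ {f | j' f ≠ 0} := by
      intro f hf
      by_contra h6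
      simp only [Set.mem_union, Set.mem_ofPred_eq, not_or, not_not] at h6
      simp [h6.1, h6.2] at hf
    refine ⟨j + b a • j', h7.trans (Set.union_subset h1 h4), (h2.union h5).subset h7, fun u => ?_⟩
    rw [bd_add, bd_smul, h3, h6, Finset.sum_insert ha, Finset.sum_insert ha]
    ring

lemma Wired.exists_chain {G : MG V E} {N : Set E} (hN : G.Wired Set.univ N) (b : V → ZMod 2) :
    ∃ j : E → ZMod 2, {e | j e ≠ 0} ⊆ N ∧ ∀ v, G.bd j v = b v := by
  have H : ∀ Y : Finset V, ∃ j : E → ZMod 2, {e | j e ≠ 0} ⊆ N ∧ ∀ v ∈ Y, G.bd j v = b v := by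
    intro Y
    choose z hz using fun v => hN.escape (Set.mem_univ v) Y
    obtain ⟨j, h1, -, h2⟩ := chain_sum (N := N) Y b z
      (fun v _ => (hz v).2.1.mono fun e he => he.1.1)
    refine ⟨j, h1, fun u hu => ?_⟩
    rw [h2, sum_mul_dl, if_pos hu, Finset.sum_eq_zero, add_zero]
    intro v _
    rw [dl, if_neg (fun h : z v = u => (hz v).1 (h ▸ hu)), mul_zero]
  choose j hj using H
  obtain ⟨j', hj'⟩ := exists_limit (Filter.atTop : Filter (Finset V)) j
  refine ⟨j', fun e he => ?_, fun v => ?_⟩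
  · obtain ⟨Y, -, h⟩ := hj' {e} (Set.finite_singleton e) (fun _ => True)
      (Filter.Eventually.of_forall fun _ => trivial)
    exact (hj Y).1 (show j Y e ≠ 0 from (h e rfl).symm ▸ he)
  · obtain ⟨Y, hY, h⟩ := hj' _ (G.lf v) (fun Y => {v} ≤ Y) (Filter.eventually_ge_atTop _)
    rw [← G.bd_congr h]
    exact (hj Y).2 v (hY (Finset.mem_singleton_self v))

/-- all degrees are even -/
def Ev (G : MG V E) (N : Set E) : Prop := ∀ v, G.bd (ind N) v = 0

/-- a strong form of having one end -/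
def OneEnd (G : MG V E) (N : Set E) : Prop :=
  ∀ Y : Finset V, ∃ S : Finset V, Y ⊆ S ∧ ∀ a b, a ∉ S → b ∉ S → G.Conn (N ∩ G.In (↑S)ᶜ) a b

theorem exists_even_spine (G : MG V E) (h4 : ∀ X : Finset V, X.Nonempty → 4 ≤ G.d X)
    (H3 : ∀ U : Set V, (G.cut U).Finite → U.Finite ∨ Uᶜ.Finite) [Infinite V] [Countable V] :
    ∃ H : Set E, G.Ev H ∧ (∀ a b, G.Conn H a b) ∧ G.OneEnd H := by
  obtain ⟨T, h1, h2, h3⟩ := G.exists_spine h4 H3
  obtain ⟨j, h5, h6⟩ := h1.exists_chain (G.bd (ind T))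
  refine ⟨T ∪ {e | j e ≠ 0}, fun v => ?_, fun a b => (h2 a b).mono Set.subset_union_left,
    fun Y => ?_⟩
  · rw [ind_union (Set.disjoint_left.mpr fun e he he' => h5 he' he), ind_support, bd_add, h6,
      z2_add_self]
  · obtain ⟨S, h7, h8⟩ := h3 Y
    exact ⟨S, h7, fun a b ha hb => (h8 a b ha hb).mono
      (Set.inter_subset_inter_left _ Set.subset_union_left)⟩

lemma Ev.sdiff {G : MG V E} {N N' : Set E} (hN : G.Ev N) (hN' : G.Ev N') (h : N' ⊆ N) :
    G.Ev (N \ N') := fun v => by rw [ind_sdiff h, bd_add, hN, hN', add_zero]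

lemma Ev.restrict {G : MG V E} {N : Set E} (hN : G.Ev N) {C : Set V}
    (hC : ∀ e ∈ N, e ∉ G.cut C) : G.Ev {e | e ∈ N ∧ G.s e ∈ C} := by
  intro v
  by_cases hv : v ∈ C
  · rw [← hN v]
    refine G.bd_congr fun e he => ?_
    by_cases h : e ∈ N
    · have h1 := not_not.mp (hC e h)
      have h2 : G.s e ∈ C := he.elim (fun h => h ▸ hv) (fun h => h1.mpr (h ▸ hv))
      simp [ind, h, h2]
    · simp [ind, h]
  · rw [← G.bd_zero v]
    refine G.bd_congr fun e he => ?_
    by_cases h : e ∈ N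
    · have h1 := not_not.mp (hC e h)
      have h2 : G.s e ∉ C := he.elim (fun h => h ▸ hv) (fun h h' => hv (h ▸ h1.mp h'))
      simp [ind, h2]
    · simp [ind, h]

end MG

end Pool.Agent.MP_7f38c2_co.H10
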