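import Pool.Agent.MP_7f38c2_co.H10.Euler

/-! Two-way infinite Euler trails, and the multigraph form of the theorem. -/

namespace Pool.Agent.MP_7f38c2_co.H10

open Classical

lemma chain_limit {E : Type*} (P : ℕ → List E) (h : ∀ n, ∃ A, A ≠ [] ∧ P (n + 1) = P n ++ A) :
    (∀ n, n ≤ (P n).length) ∧ ∃ g : ℕ → E, ∀ n i (hi : i < (P n).length), (P n)[i] = g i := by
  have h1 : ∀ n, n ≤ (P n).length := by
    intro n
    induction n with
    | zero => exact Nat.zero_le _
    | succ n ih =>
      obtain ⟨A, hA, h2⟩ := h n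
      have := List.length_pos_of_ne_nil hA
      rw [h2, List.length_append]
      omega
  have h2 : ∀ n m, n ≤ m → ∃ A, P m = P n ++ A := by
    intro n m hnm
    induction hnm with
    | refl => exact ⟨[], by simp⟩
    | @step m _ ih =>
      obtain ⟨A, hA⟩ := ih
      obtain ⟨B, -, hB⟩ := h m
      exact ⟨A ++ B, by rw [hB, hA, List.append_assoc]⟩
  have h3 : ∀ n m, n ≤ m → ∀ i (hi : i < (P n).length) (hi' : i < (P m).length),
      (P n)[i] = (P m)[i] := by
    intro n m hnm i hi hi'
    obtain ⟨A, hA⟩ := h2 n m hnm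
    simp only [hA, List.getElem_append_left hi]
  refine ⟨h1, fun i => (P (i + 1))[i]'(h1 (i + 1)), fun n i hi => ?_⟩
  rcases le_total n (i + 1) with h | h
  · exact h3 _ _ h i _ _
  · exact (h3 _ _ h i _ _).symm

namespace MG

variable {V E : Type*}

def Touch (G : MG V E) (e f : E) : Prop := ∃ v, (G.s e = v ∨ G.t e = v) ∧ (G.s f = v ∨ G.t f = v)

lemma Touch.symm {G : MG V E} {e f : E} (h : G.Touch e f) : G.Touch f e :=
  ⟨_, h.choose_spec.2, h.choose_spec.1⟩

lemma Wk.head {G : MG V E} {a c : V} {l : List E} (h : G.Wk a l c) (hl : 0 < l.length) :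
    G.s l[0] = a ∨ G.t l[0] = a := by
  cases h with
  | nil => simp at hl
  | cons h _ => exact h.imp And.left And.right

lemma Wk.touch {G : MG V E} {a c : V} {l : List E} (h : G.Wk a l c) (i : ℕ)
    (hl : i + 1 < l.length) : G.Touch l[i] l[i + 1] := by
  induction h generalizing i with
  | nil => simp at hl
  | @cons a b c e l h h' ih =>
    cases i with
    | zero =>
      exact ⟨b, h.symm.imp And.left And.right, h'.head (by simpa using hl)⟩
    | succ i => exact ih i (by simpa using hl)

theorem exists_double_ray (G : MG V E) [Infinite V] [Countable E] [Nonempty E]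
    (hG : G.OneEnd Set.univ) (hev : G.Ev Set.univ) (hc : ∀ a b, G.Conn Set.univ a b) :
    ∃ f : ℤ ≃ E, ∀ i, G.Touch (f i) (f (i + 1)) := by
  obtain ⟨ee, hee⟩ := exists_surjective_nat E
  obtain ⟨v0⟩ : Nonempty V := inferInstance
  let St := {p : List E × List E × V // G.Wk v0 p.1 p.2.2 ∧ G.Wk v0 p.2.1 p.2.2 ∧
    (p.1 ++ p.2.1).Nodup ∧ G.Good {e | e ∉ p.1 ++ p.2.1} p.2.2}
  have hstep : ∀ (p : St) (e : E), ∃ q : St, (∃ A, A ≠ [] ∧ q.1.1 = p.1.1 ++ A) ∧
      (∃ B, B ≠ [] ∧ q.1.2.1 = p.1.2.1 ++ B) ∧ e ∈ q.1.1 ++ q.1.2.1 := by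
    rintro ⟨⟨P, Q, v⟩, h1, h2, h3, h4⟩ e
    obtain ⟨N', v', A, B, h5, h6, h7, h8, h9, h10, h11, h12⟩ := h4.extend hG e
    have h13 : {f | f ∉ (P ++ A) ++ (Q ++ B.reverse)} = N' := by
      ext f
      have h14 := h12 f
      have h15 := @h7 f
      simp only [Set.mem_ofPred_eq, List.mem_append, List.mem_reverse, Set.mem_sdiff] at h14 h15 ⊢
      tauto
    refine ⟨⟨(P ++ A, Q ++ B.reverse, v'), h1.append h9, h2.append h10.reverse, ?_, h13 ▸ h5⟩,
      ⟨A, h9.ne_nil h6, rfl⟩, ⟨B.reverse, h10.reverse.ne_nil h6, rfl⟩, ?_⟩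
    · have h14 : List.Perm ((P ++ A) ++ (Q ++ B.reverse)) ((P ++ Q) ++ (A ++ B)) := by
        rw [List.append_assoc, List.append_assoc]
        refine List.Perm.append_left P ((List.perm_append_comm_assoc A Q _).trans ?_)
        exact ((List.reverse_perm B).append_left A).append_left Q
      refine h14.nodup_iff.mpr (List.nodup_append.mpr ⟨h3, h11, ?_⟩)
      rintro f hf g hg rfl
      exact ((h12 f).mp hg).1 hf
    · by_contra h
      exact h8 (h13 ▸ h)
  choose nx hP hQ hE using hstep
  let st : ℕ → St := fun n => Nat.rec ⟨([], [], v0), Wk.nil _, Wk.nil _, List.nodup_nil, by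
      simpa [Good] using ⟨hev, fun e => hc _ _⟩⟩ (fun n p => nx p (ee n)) n
  obtain ⟨hlP, g, hg⟩ := chain_limit (fun n => (st n).1.1) fun n => hP (st n) (ee n)
  obtain ⟨hlQ, h, hh⟩ := chain_limit (fun n => (st n).1.2.1) fun n => hQ (st n) (ee n)
  have hcov : ∀ n, ee n ∈ (st (n + 1)).1.1 ++ (st (n + 1)).1.2.1 := fun n => hE (st n) (ee n)
  clear_value st
  let f : ℤ → E := fun i => match i with
    | Int.ofNat n => g n
    | Int.negSucc n => h n
  have hnd := fun n => List.nodup_append.mp (st n).2.2.2.1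
  have hgi : Function.Injective g := by
    intro i j hij
    have h1 := hlP (max i j + 1)
    rw [← hg (max i j + 1) i (by omega), ← hg (max i j + 1) j (by omega)] at hij
    exact ((hnd _).1.getElem_inj_iff).mp hij
  have hhi : Function.Injective h := by
    intro i j hij
    have h1 := hlQ (max i j + 1)
    rw [← hh (max i j + 1) i (by omega), ← hh (max i j + 1) j (by omega)] at hij
    exact ((hnd _).2.1.getElem_inj_iff).mp hij
  have hgh : ∀ i j, g i ≠ h j := by
    intro i j
    have h1 := hlP (max i j + 1)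
    have h2 := hlQ (max i j + 1)
    rw [← hg (max i j + 1) i (by omega), ← hh (max i j + 1) j (by omega)]
    exact (hnd _).2.2 _ (List.getElem_mem _) _ (List.getElem_mem _)
  have hf : Function.Bijective f := by
    constructor
    · rintro (i | i) (j | j) hij
      · exact congrArg _ (hgi hij)
      · exact absurd hij (hgh _ _)
      · exact absurd hij.symm (hgh _ _)
      · exact congrArg _ (hhi hij)
    · intro e
      obtain ⟨n, rfl⟩ := hee e
      rcases List.mem_append.mp (hcov n) with h1 | h1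
      · obtain ⟨i, hi, h2⟩ := List.getElem_of_mem h1
        exact ⟨Int.ofNat i, (hg _ i hi).symm.trans h2⟩
      · obtain ⟨i, hi, h2⟩ := List.getElem_of_mem h1
        exact ⟨Int.negSucc i, (hh _ i hi).symm.trans h2⟩
  refine ⟨Equiv.ofBijective f hf, ?_⟩
  rintro (i | _ | i)
  · show G.Touch (g i) (g (i + 1))
    have h1 := hlP (i + 2)
    rw [← hg (i + 2) i (by omega), ← hg (i + 2) (i + 1) (by omega)]
    exact (st (i + 2)).2.1.touch i _
  · show G.Touch (h 0) (g 0)
    rw [← hg 1 0 (hlP 1), ← hh 1 0 (hlQ 1)]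
    exact ⟨v0, (st 1).2.2.1.head _, (st 1).2.1.head _⟩
  · show G.Touch (h (i + 1)) (h i)
    have h1 := hlQ (i + 2)
    rw [← hh (i + 2) i (by omega), ← hh (i + 2) (i + 1) (by omega)]
    exact ((st (i + 2)).2.2.1.touch i _).symm

/-- edges outside `H` become loops -/
noncomputable def loopify (G : MG V E) (H : Set E) : MG V E where
  s := G.s
  t e := if e ∈ H then G.t e else G.s e
  lf v := (G.lf v).subset (by
    intro e he
    simp only [Set.mem_ofPred_eq] at he ⊢
    split_ifs at he <;> tauto)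

lemma Conn.loopify {G : MG V E} {H N : Set E} (hN : N ⊆ H) {a b : V} (h : G.Conn N a b) :
    (G.loopify H).Conn N a b := by
  induction h with
  | refl => exact Conn.refl _ _ _
  | tail _ hbc ih =>
    obtain ⟨e, he, h⟩ := hbc
    refine ih.trans (Conn.edge he ?_)
    simpa [Joins, MG.loopify, hN he] using h

theorem main_mg (G : MG V E) (h4 : ∀ X : Finset V, X.Nonempty → 4 ≤ G.d X)
    (H3 : ∀ U : Set V, (G.cut U).Finite → U.Finite ∨ Uᶜ.Finite) [Infinite V] [Countable V]
    [Countable E] [Nonempty E] : ∃ f : ℤ ≃ E, ∀ i, G.Touch (f i) (f (i + 1)) := by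
  obtain ⟨H, h1, h2, h3⟩ := G.exists_even_spine h4 H3
  obtain ⟨f, hf⟩ := (G.loopify H).exists_double_ray (fun Y => by
      obtain ⟨S, h5, h6⟩ := h3 Y
      refine ⟨S, h5, fun a b ha hb => ((h6 a b ha hb).loopify Set.inter_subset_left).mono ?_⟩
      intro e he
      refine ⟨trivial, he.2.1, ?_⟩
      simp only [loopify, if_pos he.1]
      exact he.2.2)
    (fun v => by
      rw [← h1 v]
      unfold bd
      refine Finset.sum_congr_of_eq_on_inter ?_ ?_ ?_
      · intro e he he'
        simp only [Set.Finite.mem_toFinset, Set.mem_ofPred_eq, loopify] at he he'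
        split_ifs at he <;> tauto
      · intro e he he'
        simp only [Set.Finite.mem_toFinset, Set.mem_ofPred_eq, loopify] at he he'
        split_ifs at he' with h
        · tauto
        · simp [ind, h]
      · intro e _ _
        by_cases h : e ∈ H <;> simp [ind, mu, loopify, h, z2_add_self])
    (fun a b => ((h2 a b).loopify subset_rfl).mono (Set.subset_univ _))
  refine ⟨f, fun i => ?_⟩
  obtain ⟨v, h5, h6⟩ := hf i
  simp only [loopify] at h5 h6
  refine ⟨v, ?_, ?_⟩
  · split_ifs at h5 <;> tauto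
  · split_ifs at h6 <;> tauto

end MG

end Pool.Agent.MP_7f38c2_co.H10
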