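import Pool.Agent.MP_7f38c2_co.H10.Ray

/-! Translation to simple graphs. -/

namespace Pool.Agent.MP_7f38c2_co.H10

open Classical

variable {V : Type*}

noncomputable def ofSG (G : SimpleGraph V) [G.LocallyFinite] : MG V G.edgeSet where
  s e := e.1.out.1
  t e := e.1.out.2
  lf v := ((G.incidenceFinset v).finite_toSet.preimage Subtype.val_injective.injOn).subset (by
    intro e he
    simp only [Set.mem_preimage, Finset.mem_coe, SimpleGraph.mem_incidenceFinset]
    refine ⟨e.2, ?_⟩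
    rcases he with rfl | rfl
    · exact Sym2.out_fst_mem _
    · exact Sym2.out_snd_mem _)

lemma ofSG_mk (G : SimpleGraph V) [G.LocallyFinite] (e : G.edgeSet) :
    s((ofSG G).s e, (ofSG G).t e) = e.1 := Quot.out_eq e.1

lemma ofSG_joins (G : SimpleGraph V) [G.LocallyFinite] {a b : V} (h : G.Adj a b) :
    (ofSG G).Joins ⟨s(a, b), h⟩ a b := Sym2.eq_iff.mp (ofSG_mk G ⟨s(a, b), h⟩)

lemma mem_cut_of_adj (G : SimpleGraph V) [G.LocallyFinite] {a b : V} (h : G.Adj a b) {U : Set V}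
    (ha : a ∈ U) (hb : b ∉ U) : (⟨s(a, b), h⟩ : G.edgeSet) ∈ (ofSG G).cut U := by
  rcases ofSG_joins G h with ⟨h1, h2⟩ | ⟨h1, h2⟩ <;>
    simp [MG.cut, h1, h2, ha, hb]

lemma four_le_d (G : SimpleGraph V) [G.LocallyFinite] [Infinite V] (h4 : G.IsEdgeConnected 4)
    (X : Finset V) (hX : X.Nonempty) : 4 ≤ (ofSG G).d X := by
  obtain ⟨x, hx⟩ := hX
  obtain ⟨y, hy⟩ := Infinite.exists_notMem_finset X
  by_contra hlt
  rw [MG.d_eq] at hlt
  have hf := (ofSG G).cut_finite X.finite_toSet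
  have h1 := h4 x y (s := Subtype.val '' (ofSG G).cut X) (by
    rw [Subtype.val_injective.encard_image, ← hf.cast_ncard_eq]
    exact_mod_cast not_le.mp hlt)
  rw [SimpleGraph.reachable_iff_reflTransGen] at h1
  refine hy ?_
  clear hy
  induction h1 with
  | refl => exact hx
  | @tail b c _ hbc ih =>
    by_contra hc
    rw [SimpleGraph.deleteEdges_adj] at hbc
    exact hbc.2 ⟨_, mem_cut_of_adj G hbc.1 ih hc, rfl⟩

lemma countable_of_preconnected (G : SimpleGraph V) [G.LocallyFinite] (h : G.Preconnected) :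
    Countable V := by
  rcases isEmpty_or_nonempty V with h0 | ⟨⟨v⟩⟩
  · infer_instance
  let B : ℕ → Set V := fun n => Nat.rec {v} (fun _ S => ⋃ u ∈ S, G.neighborSet u) n
  have h1 : ∀ n, (B n).Finite := by
    intro n
    induction n with
    | zero => exact Set.finite_singleton v
    | succ n ih => exact ih.biUnion fun u _ => Set.toFinite _
  rw [← Set.countable_univ_iff]
  refine (Set.countable_iUnion fun n => (h1 n).countable).mono fun u _ => ?_
  have h2 := (SimpleGraph.reachable_iff_reflTransGen _ _).mp (h v u)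
  induction h2 with
  | refl => exact Set.mem_iUnion.mpr ⟨0, rfl⟩
  | tail _ hbc ih =>
    obtain ⟨n, hn⟩ := Set.mem_iUnion.mp (ih trivial)
    exact Set.mem_iUnion.mpr ⟨n + 1, Set.mem_biUnion hn hbc⟩

lemma exists_ray_in (G : SimpleGraph V) [G.LocallyFinite] (h : G.Preconnected) {U : Set V}
    (hU : U.Infinite) {w : V} (hw : w ∉ U) {A : Set V} (hA : A.Finite)
    (hA' : ∀ a b, G.Adj a b → a ∉ U → b ∈ U → b ∈ A) :
    ∃ r : ℕ → V, Function.Injective r ∧ (∀ n, G.Adj (r n) (r (n + 1))) ∧ ∀ n, r n ∈ U := by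
  let R : Set V → V → V → Prop := fun F =>
    Relation.ReflTransGen fun x y => G.Adj x y ∧ y ∈ U ∧ y ∉ F
  let St := {p : V × Set V // p.1 ∈ U ∧ p.1 ∉ p.2 ∧ {b | R p.2 p.1 b}.Infinite}
  have h0 : Nonempty St := by
    by_contra hcon
    refine hU (((hA.inter_of_left U).biUnion (t := fun a => {b | R ∅ a b}) fun a ha => ?_).subset ?_)
    · by_contra h1
      exact hcon ⟨⟨(a, ∅), ha.2, Set.notMem_empty _, h1⟩⟩
    · intro b hb
      have h2 := (SimpleGraph.reachable_iff_reflTransGen _ _).mp (h w b)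
      induction h2 with
      | refl => exact absurd hb hw
      | @tail b c _ hbc ih =>
        by_cases h3 : b ∈ U
        · obtain ⟨a, ha, h4⟩ := Set.mem_iUnion₂.mp (ih h3)
          exact Set.mem_biUnion ha (Relation.ReflTransGen.tail h4 ⟨hbc, hb, Set.notMem_empty _⟩)
        · exact Set.mem_biUnion (x := c) ⟨hA' b c hbc h3 hb, hb⟩ Relation.ReflTransGen.refl
  have hstep : ∀ p : St, ∃ q : St, G.Adj p.1.1 q.1.1 ∧ q.1.2 = insert p.1.1 p.1.2 := by
    rintro ⟨⟨v, F⟩, h1, h2, h3⟩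
    by_contra hcon
    have h4 : {u | u ∈ G.neighborSet v ∧ u ∈ U ∧ u ∉ insert v F}.Finite :=
      (Set.toFinite (G.neighborSet v)).subset fun u hu => hu.1
    refine h3 (((h4.biUnion (t := fun a => {b | R (insert v F) a b}) fun a ha => ?_).insert
      v).subset ?_)
    · by_contra h5
      exact hcon ⟨⟨(a, insert v F), ha.2.1, ha.2.2, h5⟩, ha.1, rfl⟩
    · intro b hb
      induction hb with
      | refl => exact Set.mem_insert _ _
      | @tail b c _ hbc ih =>
        by_cases hc : c = v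
        · exact Or.inl hc
        have h5 : c ∉ insert v F := fun h => h.elim hc hbc.2.2
        rcases ih with rfl | ih
        · exact Or.inr (Set.mem_biUnion (x := c) ⟨hbc.1, hbc.2.1, h5⟩ Relation.ReflTransGen.refl)
        · obtain ⟨a, ha, h6⟩ := Set.mem_iUnion₂.mp ih
          exact Or.inr (Set.mem_biUnion ha (Relation.ReflTransGen.tail h6 ⟨hbc.1, hbc.2.1, h5⟩))
  choose nx h1 h2 using hstep
  obtain ⟨p0⟩ := h0
  let st : ℕ → St := fun n => nx^[n] p0
  have h3 : ∀ n, st (n + 1) = nx (st n) := fun n => Function.iterate_succ_apply' _ _ _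
  have h4 : ∀ m n, m < n → (st m).1.1 ∈ (st n).1.2 := by
    intro m n hmn
    induction hmn with
    | refl => rw [h3, h2]; exact Set.mem_insert _ _
    | step _ ih => rw [h3, h2]; exact Set.mem_insert_of_mem _ ih
  refine ⟨fun n => (st n).1.1, fun m n hmn => ?_, fun n => by simpa only [h3] using h1 (st n),
    fun n => (st n).2.1⟩
  by_contra hne
  rcases lt_or_gt_of_ne hne with h | h
  · exact (st n).2.2.1 ((show (st m).1.1 = (st n).1.1 from hmn) ▸ h4 m n h)
  · exact (st m).2.2.1 ((show (st m).1.1 = (st n).1.1 from hmn) ▸ h4 n m h)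

theorem main_simple (G : SimpleGraph V) [G.LocallyFinite] (h4 : G.IsEdgeConnected 4)
    (hray : ∃ r : ℕ → V, Function.Injective r ∧ ∀ n, G.Adj (r n) (r (n + 1)))
    (hend : ∀ r r' : ℕ → V, Function.Injective r → (∀ n, G.Adj (r n) (r (n + 1))) →
      Function.Injective r' → (∀ n, G.Adj (r' n) (r' (n + 1))) →
      ∀ S : Finset V, ∃ (m n : ℕ) (p : G.Walk (r m) (r' n)), ∀ x ∈ p.support, x ∉ S) :
    ∃ f : ℤ ≃ G.edgeSet, ∀ i, G.lineGraph.Adj (f i) (f (i + 1)) := by
  obtain ⟨r0, hr0, hr0'⟩ := hray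
  have : Infinite V := Infinite.of_injective r0 hr0
  have hpc := h4.preconnected (by norm_num)
  have := countable_of_preconnected G hpc
  have : Nonempty G.edgeSet := ⟨⟨s(r0 0, r0 1), hr0' 0⟩⟩
  obtain ⟨f, hf⟩ := (ofSG G).main_mg (four_le_d G h4) (fun U hU => by
    by_contra hcon
    rw [not_or] at hcon
    obtain ⟨A, hA⟩ := (ofSG G).exists_ends hU
    have h1 : ∀ a b, G.Adj a b → a ∈ U → b ∉ U → a ∈ A ∧ b ∈ A := by
      intro a b hab ha hb
      have h2 := hA (mem_cut_of_adj G hab ha hb)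
      rcases ofSG_joins G hab with ⟨h3, h4⟩ | ⟨h3, h4⟩
      · exact ⟨h3 ▸ h2.1, h4 ▸ h2.2⟩
      · exact ⟨h4 ▸ h2.2, h3 ▸ h2.1⟩
    obtain ⟨u, hu⟩ := Set.Infinite.nonempty hcon.1
    obtain ⟨w, hw⟩ := Set.Infinite.nonempty hcon.2
    obtain ⟨r, h2, h3, h5⟩ := exists_ray_in G hpc hcon.1 hw A.finite_toSet
      fun a b hab ha hb => (h1 b a hab.symm hb ha).1
    obtain ⟨r', h6, h7, h8⟩ := exists_ray_in G hpc hcon.2 (not_not.mpr hu) A.finite_toSet
      fun a b hab ha hb => (h1 a b hab (not_not.mp ha) hb).2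
    obtain ⟨m, n, p, hp⟩ := hend r r' h2 h3 h6 h7 A
    obtain ⟨d, hd, h9, h10⟩ := p.exists_boundary_dart U (h5 m) (h8 n)
    exact hp _ (p.dart_fst_mem_support_of_mem_darts hd) (h1 _ _ d.adj h9 h10).1)
  refine ⟨f, fun i => SimpleGraph.lineGraph_adj_iff_exists.mpr ⟨fun h => ?_, ?_⟩⟩
  · have := f.injective h
    omega
  · obtain ⟨v, h1, h2⟩ := hf i
    refine ⟨v, ?_, ?_⟩
    · rw [← ofSG_mk]
      rcases h1 with rfl | rfl <;> simp
    · rw [← ofSG_mk]
      rcases h2 with rfl | rfl <;> simp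

end Pool.Agent.MP_7f38c2_co.H10
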