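import Pool.Agent.MP_7f38c2_co.H10.Ambient

/-! A spanning one-ended edge set whose complement has only infinite components. -/

namespace Pool.Agent.MP_7f38c2_co.H10

open Classical

namespace MG

variable {V E : Type*}

/-- `S` has a smallest cut among its finite supersets -/
def MinC (G : MG V E) (S : Finset V) : Prop := ∀ S', S ⊆ S' → G.d S ≤ G.d S'

lemma exists_minC (G : MG V E) (S0 : Finset V) : ∃ S, S0 ⊆ S ∧ G.MinC S := by
  have hex : ∃ n, ∃ S, S0 ⊆ S ∧ G.d S = n := ⟨_, S0, subset_rfl, rfl⟩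
  obtain ⟨S, h1, h2⟩ := Nat.find_spec hex
  exact ⟨S, h1, fun S' h => h2 ▸ Nat.find_min' hex ⟨S', h1.trans h, rfl⟩⟩

lemma Inc_mono (G : MG V E) {S S' : Set V} (h : S ⊆ S') : G.Inc S ⊆ G.Inc S' :=
  fun _ he => he.imp (fun h' => h h') (fun h' => h h')

lemma In_mono (G : MG V E) {S S' : Set V} (h : S ⊆ S') : G.In S ⊆ G.In S' :=
  fun _ he => he.imp (fun h' => h h') (fun h' => h h')

lemma Conn.support {G : MG V E} {N : Set E} {a b : V} (h : G.Conn N a b) :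
    ∃ Y : Finset V, G.Conn (N ∩ G.Inc Y) a b := by
  induction h with
  | refl => exact ⟨∅, Conn.refl _ _ _⟩
  | tail _ hbc ih =>
    obtain ⟨e, he, h⟩ := hbc
    obtain ⟨Y, hY⟩ := ih
    refine ⟨insert (G.s e) Y, (hY.mono (Set.inter_subset_inter_right _ (G.Inc_mono ?_))).trans
      (Conn.edge ⟨he, Or.inl (by simp)⟩ h)⟩
    simp

lemma support_all {G : MG V E} {N : Set E} {x : V} (A : Finset V) (h : ∀ a ∈ A, G.Conn N x a) :
    ∃ Y : Finset V, ∀ a ∈ A, G.Conn (N ∩ G.Inc Y) x a := by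
  choose! Y hY using fun a ha => (h a ha).support
  refine ⟨A.biUnion Y, fun a ha => (hY a ha).mono (Set.inter_subset_inter_right _ (G.Inc_mono ?_))⟩
  exact Finset.coe_subset.mpr (Finset.subset_biUnion_of_mem Y ha)

/-- outer boundary -/
def Bd (G : MG V E) (S : Set V) : Set V := {v | v ∉ S ∧ ∃ e ∈ G.Inc S, G.s e = v ∨ G.t e = v}

lemma Bd_finite (G : MG V E) {S : Set V} (hS : S.Finite) : (G.Bd S).Finite := by
  refine (((G.inc_finite hS).image G.s).union ((G.inc_finite hS).image G.t)).subset ?_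
  rintro v ⟨-, e, he, h | h⟩
  · exact Or.inl ⟨e, he, h⟩
  · exact Or.inr ⟨e, he, h⟩

lemma Conn.mem {G : MG V E} {N : Set E} {B : Set V} (hN : N ⊆ G.In B) {a b : V} (ha : a ∈ B)
    (h : G.Conn N a b) : b ∈ B := by
  induction h with
  | refl => exact ha
  | tail _ hbc _ =>
    obtain ⟨e, he, ⟨-, h⟩ | ⟨h, -⟩⟩ := hbc
    · exact h ▸ (hN he).2
    · exact h ▸ (hN he).1

lemma not_mem_cut_conn {G : MG V E} {N : Set E} {a : V} {e : E} (he : e ∈ N) :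
    e ∉ G.cut {u | G.Conn N a u} := fun h =>
  h ⟨fun h' => Conn.trans h' (Conn.edge he (Or.inl ⟨rfl, rfl⟩)),
    fun h' => Conn.trans h' (Conn.edge he (Or.inr ⟨rfl, rfl⟩))⟩

lemma Wired.escape {G : MG V E} {B : Set V} {T : Set E} (hT : G.Wired B T) {a : V} (ha : a ∈ B)
    (S : Finset V) : ∃ a', a' ∉ S ∧ G.Conn (T ∩ G.In B ∩ G.Inc S) a a' ∧ (a ∈ S → a' ∈ G.Bd S) := by
  obtain ⟨a', h1, h2⟩ : ∃ a', G.Conn (T ∩ G.In B ∩ G.Inc S) a a' ∧ a' ∉ S := by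
    by_contra hcon
    push Not at hcon
    have hf : {u | G.Conn (T ∩ G.In B ∩ G.Inc S) a u}.Finite := S.finite_toSet.subset hcon
    obtain ⟨e, he, h⟩ := hT hf.toFinset ⟨a, hf.mem_toFinset.mpr (Conn.refl _ _ _)⟩ (by
      intro u hu
      exact Conn.mem (fun e he => he.1.2) ha (hf.mem_toFinset.mp hu))
    rw [Set.Finite.coe_toFinset] at h
    refine not_mem_cut_conn (Set.mem_inter he ?_) h
    by_contra h'
    refine h ⟨fun h1 => absurd (Or.inl (hcon _ h1)) h', fun h1 => absurd (Or.inr (hcon _ h1)) h'⟩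
  refine ⟨a', h2, h1, fun haS => ⟨h2, ?_⟩⟩
  rcases h1.cases_tail with rfl | ⟨c, -, e, he, h⟩
  · exact absurd haS h2
  · exact ⟨e, he.2, h.symm.imp And.left And.right⟩

lemma Wired.glue {G : MG V E} {B B' : Set V} {T T' T'' : Set E} (hT : G.Wired B T)
    (hT' : G.Wired B' T') (hB : B' ⊆ B) (h1 : T \ G.In B' ⊆ T'') (h2 : T' ∩ G.In B' ⊆ T'') :
    G.Wired B T'' := by
  intro X hX hXB
  by_cases h : ∃ v ∈ X, v ∈ B'
  · obtain ⟨v, hv, hv'⟩ := h
    obtain ⟨e, he, h3⟩ := hT' (X.filter (· ∈ B')) ⟨v, Finset.mem_filter.mpr ⟨hv, hv'⟩⟩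
      (fun u hu => (Finset.mem_filter.mp hu).2)
    refine ⟨e, ⟨h2 he, G.In_mono hB he.2⟩, ?_⟩
    simpa [cut, he.2.1, he.2.2] using h3
  · push Not at h
    obtain ⟨e, he, h3⟩ := hT X hX hXB
    refine ⟨e, ⟨h1 ⟨he.1, fun h4 => h3 ?_⟩, he.2⟩, h3⟩
    exact ⟨fun h5 => absurd h4.1 (h _ h5), fun h5 => absurd h4.2 (h _ h5)⟩

section

variable (G : MG V E) (h4 : ∀ X : Finset V, X.Nonempty → 4 ≤ G.d X)
  (H3 : ∀ U : Set V, (G.cut U).Finite → U.Finite ∨ Uᶜ.Finite)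

include h4 H3

lemma step_all {S : Finset V} (hS : G.MinC S) {x : V} (hx : x ∉ S) (A : Finset V)
    (hA : ∀ a ∈ A, a ∉ S) : ∃ T : Set E, G.Wired (↑S)ᶜ T ∧ G.Wired (↑S)ᶜ Tᶜ ∧
      ∀ a ∈ A, G.Conn (T ∩ G.In (↑S)ᶜ) x a := by
  induction A using Finset.induction_on with
  | empty =>
    obtain ⟨T, h1, h2, -⟩ := G.core_amb h4 H3 S hS hx hx
    exact ⟨T, h1, h2, by simp⟩
  | insert y A _ ih =>
    obtain ⟨T, h1, h2, h3⟩ := ih fun a ha => hA a (Finset.mem_insert_of_mem ha)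
    obtain ⟨Y, hY⟩ := support_all A h3
    obtain ⟨S', h5, hS'⟩ := G.exists_minC (S ∪ Y)
    have hSS : ((↑S')ᶜ : Set V) ⊆ (↑S)ᶜ :=
      Set.compl_subset_compl.mpr (Finset.coe_subset.mpr (Finset.subset_union_left.trans h5))
    obtain ⟨x', hx1, hx2, -⟩ := h1.escape (a := x) hx S'
    obtain ⟨y', hy1, hy2, -⟩ := h1.escape (a := y) (hA y (Finset.mem_insert_self _ _)) S'
    obtain ⟨T', h6, h7, h8⟩ := G.core_amb h4 H3 S' hS' hx1 hy1
    have hsub : T ∩ G.In (↑S)ᶜ ∩ G.Inc S' ⊆ ((T \ G.In (↑S')ᶜ) ∪ (T' ∩ G.In (↑S')ᶜ)) ∩ G.In (↑S)ᶜ :=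
      fun e he => ⟨Or.inl ⟨he.1.1, fun h => he.2.elim h.1 h.2⟩, he.1.2⟩
    refine ⟨(T \ G.In (↑S')ᶜ) ∪ (T' ∩ G.In (↑S')ᶜ),
      h1.glue h6 hSS Set.subset_union_left Set.subset_union_right,
      h2.glue h7 hSS (fun e he h => h.elim (fun h => he.1 h.1) (fun h => he.2 h.2))
        (fun e he h => h.elim (fun h => h.2 he.2) (fun h => he.1 h.1)), fun a ha => ?_⟩
    rcases Finset.mem_insert.mp ha with rfl | ha
    · exact (hx2.mono hsub).trans ((h8.mono fun e he => Set.mem_inter (Or.inr he) (G.In_mono hSS he.2)).trans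
        (hy2.mono hsub).symm)
    · refine (hY a ha).mono (subset_trans (Set.inter_subset_inter_right _ (G.Inc_mono ?_)) hsub)
      exact Finset.coe_subset.mpr (Finset.subset_union_right.trans h5)

lemma step_next [Infinite V] (S : Finset V) (hS : G.MinC S) (v : V) :
    ∃ (T : Set E) (S' : Finset V), G.MinC S' ∧ S ⊆ S' ∧ v ∈ S' ∧ G.Bd S ⊆ S' ∧
      G.Wired (↑S)ᶜ T ∧ G.Wired (↑S)ᶜ Tᶜ ∧
      ∀ a ∈ G.Bd S, ∀ b ∈ G.Bd S, G.Conn (T ∩ G.In (↑S)ᶜ ∩ G.Inc S') a b := by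
  obtain ⟨x, hx⟩ := Infinite.exists_notMem_finset S
  have hf := G.Bd_finite S.finite_toSet
  obtain ⟨T, h1, h2, h3⟩ := G.step_all h4 H3 hS hx hf.toFinset
    (fun a ha => (hf.mem_toFinset.mp ha).1)
  obtain ⟨Y, hY⟩ := support_all _ h3
  obtain ⟨S', h5, hS'⟩ := G.exists_minC (insert v (S ∪ Y ∪ hf.toFinset))
  have h6 : ∀ a ∈ G.Bd S, G.Conn (T ∩ G.In (↑S)ᶜ ∩ G.Inc S') x a := fun a ha =>
    (hY a (hf.mem_toFinset.mpr ha)).mono (Set.inter_subset_inter_right _ (G.Inc_mono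
      fun u hu => h5 (by simp [Finset.mem_coe.mp hu])))
  exact ⟨T, S', hS', fun u hu => h5 (by simp [hu]), h5 (by simp), fun u hu => h5 (by simp [hu]),
    h1, h2, fun a ha b hb => (h6 a ha).symm.trans (h6 b hb)⟩

theorem exists_spine [Infinite V] [Countable V] :
    ∃ T : Set E, G.Wired Set.univ Tᶜ ∧ (∀ a b, G.Conn T a b) ∧
      ∀ Y : Finset V, ∃ S : Finset V, Y ⊆ S ∧ ∀ a b, a ∉ S → b ∉ S → G.Conn (T ∩ G.In (↑S)ᶜ) a b := by
  obtain ⟨v, hv⟩ := exists_surjective_nat V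
  choose TT SS hmin hsub hmem hbd hw hw' hconn using G.step_next h4 H3
  let st : ℕ → {S : Finset V // G.MinC S} := fun n => Nat.rec ⟨∅, fun S' _ => by simp [d_eq, cut]⟩
    (fun n p => ⟨SS p.1 p.2 (v n), hmin _ _ _⟩) n
  let S : ℕ → Finset V := fun n => (st n).1
  let T : ℕ → Set E := fun n => TT (st n).1 (st n).2 (v n)
  have hS0 : S 0 = ∅ := rfl
  have hmono : Monotone S := monotone_nat_of_le_succ fun n => hsub (st n).1 (st n).2 (v n)
  have h1 : ∀ n, v n ∈ S (n + 1) := fun n => hmem (st n).1 (st n).2 (v n)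
  have h2 : ∀ n, G.Bd (S n) ⊆ S (n + 1) := fun n => hbd (st n).1 (st n).2 (v n)
  have h3 : ∀ n, G.Wired (↑(S n))ᶜ (T n) := fun n => hw (st n).1 (st n).2 (v n)
  have h5 : ∀ n, G.Wired (↑(S n))ᶜ (T n)ᶜ := fun n => hw' (st n).1 (st n).2 (v n)
  have h6 : ∀ n, ∀ a ∈ G.Bd (S n), ∀ b ∈ G.Bd (S n),
      G.Conn (T n ∩ G.In (↑(S n))ᶜ ∩ G.Inc (S (n + 1))) a b :=
    fun n => hconn (st n).1 (st n).2 (v n)
  clear_value S T
  have hex : ∀ X : Finset V, ∃ n, X ⊆ S n := by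
    intro X
    induction X using Finset.induction_on with
    | empty => exact ⟨0, by simp⟩
    | insert a X _ ih =>
      obtain ⟨n, hn⟩ := ih
      obtain ⟨k, rfl⟩ := hv a
      exact ⟨max n (k + 1), Finset.insert_subset (hmono (le_max_right _ _) (h1 k))
        (hn.trans (hmono (le_max_left _ _)))⟩
  set T' := ⋃ n, T n ∩ G.In (↑(S n))ᶜ ∩ G.Inc (S (n + 1)) with hT'
  have hL : ∀ m k, m ≤ k → T k ∩ G.In (↑(S k))ᶜ ∩ G.Inc (S (k + 1)) ⊆ T' ∩ G.In (↑(S m))ᶜ :=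
    fun m k hmk e he => ⟨Set.mem_iUnion.mpr ⟨k, he⟩, G.In_mono
      (Set.compl_subset_compl.mpr (Finset.coe_subset.mpr (hmono hmk))) he.1.2⟩
  have key : ∀ m a b, a ∉ S m → b ∉ S m → G.Conn (T' ∩ G.In (↑(S m))ᶜ) a b := by
    intro m
    have h7 : ∀ k, m ≤ k → ∀ a, a ∉ S m → a ∈ S k →
        ∃ a' ∈ G.Bd (S k), G.Conn (T' ∩ G.In (↑(S m))ᶜ) a a' := by
      intro k hk
      induction hk with
      | refl => exact fun a h h' => absurd h' h
      | @step k hk ih =>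
        intro a ha ha'
        obtain ⟨c, hc, hc', hac⟩ : ∃ c, c ∉ S k ∧ c ∈ S (k + 1) ∧
            G.Conn (T' ∩ G.In (↑(S m))ᶜ) a c := by
          by_cases h : a ∈ S k
          · obtain ⟨c, hc, hac⟩ := ih a ha h
            exact ⟨c, hc.1, h2 k hc, hac⟩
          · exact ⟨a, h, ha', Conn.refl _ _ _⟩
        obtain ⟨c', -, h8, h9⟩ := (h3 k).escape (a := c) hc (S (k + 1))
        exact ⟨c', h9 hc', hac.trans (h8.mono (hL m k hk))⟩
    intro a b ha hb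
    obtain ⟨n, hn⟩ := hex {a, b}
    obtain ⟨a', h8, h9⟩ := h7 (max m n) (le_max_left _ _) a ha
      (hmono (le_max_right _ _) (hn (by simp)))
    obtain ⟨b', h10, h11⟩ := h7 (max m n) (le_max_left _ _) b hb
      (hmono (le_max_right _ _) (hn (by simp)))
    exact h9.trans (((h6 _ a' h8 b' h10).mono (hL m _ (le_max_left _ _))).trans h11.symm)
  refine ⟨T', fun X hX _ => ?_, fun a b => ?_, fun Y => ?_⟩
  · have hX' := hex X
    obtain ⟨n, hn⟩ : ∃ n, Nat.find hX' = n + 1 := by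
      refine Nat.exists_eq_succ_of_ne_zero fun h => ?_
      have := Nat.find_spec hX'
      rw [h, hS0, Finset.subset_empty] at this
      exact hX.ne_empty this
    have h7 : X ⊆ S (n + 1) := hn ▸ Nat.find_spec hX'
    obtain ⟨u, hu, hu'⟩ := Finset.not_subset.mp (Nat.find_min hX' (m := n) (by omega))
    obtain ⟨e, he, h8⟩ := h5 n (X.filter (· ∉ S n)) ⟨u, Finset.mem_filter.mpr ⟨hu, hu'⟩⟩
      (fun u hu => (Finset.mem_filter.mp hu).2)
    have h9 : G.s e ∉ S n := he.2.1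
    have h10 : G.t e ∉ S n := he.2.2
    have h11 : e ∈ G.cut X := by simpa [cut, h9, h10] using h8
    refine ⟨e, ⟨fun h => ?_, trivial, trivial⟩, h11⟩
    obtain ⟨k, hk⟩ := Set.mem_iUnion.mp h
    rcases lt_trichotomy k n with h12 | rfl | h12
    · exact hk.2.elim (fun h => h9 (hmono h12 h)) (fun h => h10 (hmono h12 h))
    · exact he.1 hk.1.1
    · exact h11 ⟨fun h => absurd (hmono h12 (h7 h)) hk.1.2.1,
        fun h => absurd (hmono h12 (h7 h)) hk.1.2.2⟩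
  · exact (key 0 a b (by simp [hS0]) (by simp [hS0])).mono Set.inter_subset_left
  · obtain ⟨n, hn⟩ := hex Y
    exact ⟨S n, hn, key n⟩

end

end MG

end Pool.Agent.MP_7f38c2_co.H10
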